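import Mathlib
import Pool.Agent.H735G.Defs2
import Pool.Agent.Helper467.FP.P_n2_mul_le

/-! Block 3 of room GEN, first part: the ultralimit and the density lemma. -/

set_option autoImplicit false

open scoped ComplexOrder Topology BoundedContinuousFunction
open Filter

noncomputable section

namespace Pool.Agent.H569G.D

open Pool.Agent.H467F Pool.Agent.H735G

variable {A : Type} [CStarAlgebra A] {τ : A →ₗ[ℂ] ℂ}

theorem n2_one (h : TW τ) : n2 τ (1 : A) = 1 := by
  unfold n2
  rw [star_one, one_mul, h.one, Complex.one_re, Real.sqrt_one]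

theorem n2_le_norm (h : TW τ) (x : A) : n2 τ x ≤ ‖x‖ := by
  have h1 := (n2_mul_le h x 1).1
  rwa [mul_one, n2_one h, mul_one] at h1

theorem norm_tau_le (h : TW τ) (x : A) : ‖τ x‖ ≤ ‖x‖ := by
  have h1 := h.cauchy 1 x
  rw [star_one, one_mul, n2_one h, one_mul] at h1
  exact h1.trans (n2_le_norm h x)

theorem n2_unitary_mul (u : unitary A) (x : A) : n2 τ ((u : A) * x) = n2 τ x := by
  unfold n2
  rw [star_mul, mul_assoc, ← mul_assoc (star (u : A)), Unitary.coe_star_mul_self, one_mul]

theorem n2_mul_unitary (h : TW τ) (u : unitary A) (x : A) : n2 τ (x * (u : A)) = n2 τ x := by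
  rw [← h.n2_star, star_mul]
  have := n2_unitary_mul (τ := τ) (star u) (star x)
  rw [Unitary.coe_star] at this
  rw [this, h.n2_star]

/-! ### the ultralimit -/

/-- a free ultrafilter on `ℕ` -/
def om : Ultrafilter ℕ := Filter.hyperfilter ℕ

/-- bounded sequences -/
abbrev Sq (A : Type) [CStarAlgebra A] : Type := ℕ →ᵇ A

theorem ex_lim (h : TW τ) (x : Sq A) : ∃ c : ℂ, Tendsto (fun n => τ (x n)) om (𝓝 c) := by
  have hK : IsCompact (Metric.closedBall (0 : ℂ) ‖x‖) := isCompact_closedBall _ _
  have h1 : ∀ n, τ (x n) ∈ Metric.closedBall (0 : ℂ) ‖x‖ := by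
    intro n
    rw [mem_closedBall_zero_iff]
    exact (norm_tau_le h (x n)).trans (x.norm_coe_le_norm n)
  have h2 : (↑(om.map (fun n => τ (x n))) : Filter ℂ) ≤
      Filter.principal (Metric.closedBall (0 : ℂ) ‖x‖) := by
    rw [Filter.le_principal_iff]
    show _ ∈ Filter.map _ _
    rw [Filter.mem_map]
    exact Filter.univ_mem' h1
  obtain ⟨c, -, hc⟩ := hK.ultrafilter_le_nhds _ h2
  exact ⟨c, hc⟩

/-- the limit functional -/
def phi (h : TW τ) : Sq A →ₗ[ℂ] ℂ where
  toFun x := (ex_lim h x).choose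
  map_add' x y := by
    refine tendsto_nhds_unique (ex_lim h (x + y)).choose_spec ?_
    have := ((ex_lim h x).choose_spec).add (ex_lim h y).choose_spec
    refine this.congr fun n => ?_
    rw [BoundedContinuousFunction.add_apply, map_add]
  map_smul' c x := by
    refine tendsto_nhds_unique (ex_lim h (c • x)).choose_spec ?_
    have := ((ex_lim h x).choose_spec).const_smul c
    refine this.congr fun n => ?_
    rw [BoundedContinuousFunction.smul_apply, map_smul]

theorem phi_tendsto (h : TW τ) (x : Sq A) : Tendsto (fun n => τ (x n)) om (𝓝 (phi h x)) :=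
  (ex_lim h x).choose_spec

theorem phi_eq (h : TW τ) (x : Sq A) (c : ℂ) (hc : Tendsto (fun n => τ (x n)) om (𝓝 c)) :
    phi h x = c := tendsto_nhds_unique (phi_tendsto h x) hc

theorem phi_ts (h : TW τ) : TS (phi h) where
  one := by
    refine phi_eq h _ _ ?_
    have : (fun n => τ ((1 : Sq A) n)) = fun _ => (1 : ℂ) := by
      funext n
      exact h.one
    rw [this]
    exact tendsto_const_nhds
  comm x y := by
    refine phi_eq h _ _ ?_
    refine (phi_tendsto h (y * x)).congr fun n => ?_
    exact h.comm _ _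
  nonneg x := by
    have hcl : IsClosed {z : ℂ | 0 ≤ z} := isClosed_Ici
    refine hcl.mem_of_tendsto (phi_tendsto h (star x * x)) (Eventually.of_forall fun n => ?_)
    exact h.nonneg (x n)
  conj x := by
    refine phi_eq h _ _ ?_
    have h1 : Tendsto (fun n => star (τ (x n))) om (𝓝 (star (phi h x))) :=
      (continuous_star.tendsto _).comp (phi_tendsto h x)
    refine h1.congr fun n => ?_
    exact (h.conj _).symm

theorem n2_tendsto (h : TW τ) (x : Sq A) : Tendsto (fun n => n2 τ (x n)) om (𝓝 (n2 (phi h) x)) := by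
  have h1 := phi_tendsto h (star x * x)
  have h2 := (Complex.continuous_re.tendsto _).comp h1
  exact (Real.continuous_sqrt.tendsto _).comp h2

/-- a sequence of unitaries as a unitary -/
def useq (y : ℕ → unitary A) : unitary (Sq A) :=
  ⟨BoundedContinuousFunction.ofNormedAddCommGroupDiscrete (fun n => (y n : A)) ‖(1 : A)‖ (by
      intro n
      nontriviality A
      rw [CStarRing.norm_one]
      exact (CStarRing.norm_coe_unitary (y n)).le), by
    rw [Unitary.mem_iff]
    constructor
    · ext n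
      exact Unitary.coe_star_mul_self (y n)
    · ext n
      exact Unitary.coe_mul_star_self (y n)⟩

theorem useq_apply (y : ℕ → unitary A) (n : ℕ) : ((useq y : unitary (Sq A)) : Sq A) n = (y n : A) :=
  rfl

/-- the coordinates of a unitary sequence -/
def ucoord (n : ℕ) : unitary (Sq A) →* unitary A where
  toFun U := ⟨(U : Sq A) n, by
    rw [Unitary.mem_iff]
    constructor
    · have := congrArg (fun f : Sq A => f n) (Unitary.coe_star_mul_self U)
      exact this
    · have := congrArg (fun f : Sq A => f n) (Unitary.coe_mul_star_self U)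
      exact this⟩
  map_one' := rfl
  map_mul' _ _ := rfl

theorem ucoord_apply (n : ℕ) (U : unitary (Sq A)) : ((ucoord n U : unitary A) : A) = (U : Sq A) n :=
  rfl

theorem ucoord_useq (n : ℕ) (y : ℕ → unitary A) : ucoord n (useq y) = y n := Subtype.ext rfl

theorem ucoord_lift {κ : Type} (n : ℕ) (f : κ → unitary (Sq A)) (w : FreeGroup κ) :
    ucoord n (FreeGroup.lift f w) = FreeGroup.lift (fun i => ucoord n (f i)) w := by
  have : (ucoord n).comp (FreeGroup.lift f) = FreeGroup.lift (fun i => ucoord n (f i)) := by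
    refine FreeGroup.ext_hom _ _ fun i => ?_
    simp
  exact DFunLike.congr_fun this w

/-- the unitaries of a star subalgebra -/
def UN (N : StarSubalgebra ℂ A) : Set (unitary A) := {x | (x : A) ∈ N}

/-- the group generated by the unitaries of `N` and by `u` -/
def Gp (N : StarSubalgebra ℂ A) (u : unitary A) : Subgroup (unitary A) :=
  Subgroup.closure (UN N ∪ {u})

theorem lift_mem {κ G : Type} [Group G] (H : Subgroup G) (f : κ → G) (hf : ∀ i, f i ∈ H)
    (w : FreeGroup κ) : FreeGroup.lift f w ∈ H := by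
  have h1 : (FreeGroup.lift f).range ≤ H := by
    rw [FreeGroup.range_lift_eq_closure, Subgroup.closure_le]
    rintro _ ⟨i, rfl⟩
    exact hf i
  exact h1 ⟨w, rfl⟩

/-- The flow theorem in the weaker form which is used: the word may depend on the algebra. -/
def FlowW : Prop :=
  ∀ ε : ℝ, 0 < ε → ∀ (A : Type) [CStarAlgebra A] (φ : A →ₗ[ℂ] ℂ), TS φ →
    ∀ π : FreeGroup (Fin 4) →* unitary A, (∀ w, φ (π w : A) = if w = 1 then 1 else 0) →
    ∃ (g : FreeGroup (Fin 3)) (U' : unitary A),
      n2 φ ((U' : A) - (π (FreeGroup.of 2) : A)) ≤ ε ∧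
      n2 φ (((FreeGroup.lift ![π (FreeGroup.of 0), π (FreeGroup.of 1), U'] g : unitary A) : A) -
        (π (FreeGroup.of 3) : A)) ≤ ε

theorem FlowW.of (hF : FlowThm) : FlowW := by
  intro ε hε A _ φ hφ π hπ
  obtain ⟨g, hg⟩ := hF ε hε
  obtain ⟨U', h1, h2⟩ := hg A φ hφ π hπ
  exact ⟨g, U', h1, h2⟩

/-- THE DENSITY LEMMA -/
theorem density (hF : FlowW) (h : TW τ) (N : StarSubalgebra ℂ A) (hAF : AF τ N)
    (u v : unitary A) (ε : ℝ) (hε : 0 < ε) : ∃ u' : unitary A,
      n2 τ ((u' : A) - (u : A)) < ε ∧ ∃ z ∈ Gp N u', n2 τ ((z : A) - (v : A)) < ε := by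
  obtain ⟨e, he⟩ := exists_surjective_nat (FreeGroup (Fin 4))
  let S : ℕ → Finset (FreeGroup (Fin 4)) := fun n =>
    ((Finset.range n).image e).filter fun w => w ≠ 1
  have hS1 : ∀ n, (1 : FreeGroup (Fin 4)) ∉ S n := by
    intro n h1
    exact (Finset.mem_filter.1 h1).2 rfl
  have hSm : ∀ w : FreeGroup (Fin 4), w ≠ 1 → ∃ m, ∀ n, m ≤ n → w ∈ S n := by
    intro w hw
    obtain ⟨m, rfl⟩ := he w
    refine ⟨m + 1, fun n hn => Finset.mem_filter.2 ⟨Finset.mem_image.2 ⟨m, ?_, rfl⟩, hw⟩⟩
    exact Finset.mem_range.2 (by omega)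
  have hc : ∀ n : ℕ, ∃ c : Fin 4 → unitary A, (∀ k, (c k : A) ∈ N) ∧
      ∀ w ∈ S n, ‖τ ((FreeGroup.lift ![c 0, c 1, c 2 * u, c 3 * v] w : unitary A) : A)‖
        ≤ 1 / ((n : ℝ) + 1) :=
    fun n => hAF u v (S n) (hS1 n) (1 / ((n : ℝ) + 1)) (by positivity)
  choose c hcN hcw using hc
  -- the system in the algebra of bounded sequences
  let f : Fin 4 → unitary (Sq A) := ![useq fun n => c n 0, useq fun n => c n 1,
    useq fun n => c n 2 * u, useq fun n => c n 3 * v]
  have hfn : ∀ n, (fun i => ucoord n (f i)) = ![c n 0, c n 1, c n 2 * u, c n 3 * v] := by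
    intro n
    funext i
    fin_cases i
    · exact ucoord_useq n _
    · exact ucoord_useq n _
    · exact ucoord_useq n _
    · exact ucoord_useq n _
  let π : FreeGroup (Fin 4) →* unitary (Sq A) := FreeGroup.lift f
  have hπ : ∀ w, phi h (π w : Sq A) = if w = 1 then 1 else 0 := by
    intro w
    split_ifs with hw
    · rw [hw, map_one]
      exact (phi_ts h).one
    · refine phi_eq h _ _ ?_
      have h1 : Tendsto (fun n => τ ((π w : Sq A) n)) atTop (𝓝 0) := by
        obtain ⟨m, hm⟩ := hSm w hw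
        rw [tendsto_zero_iff_norm_tendsto_zero]
        refine tendsto_of_tendsto_of_tendsto_of_le_of_le' tendsto_const_nhds
          tendsto_one_div_add_atTop_nhds_zero_nat (Eventually.of_forall fun n => norm_nonneg _) ?_
        filter_upwards [eventually_ge_atTop m] with n hn
        have h2 := hcw n w (hm n hn)
        rw [← hfn n, ← ucoord_lift n f w, ucoord_apply] at h2
        exact h2
      exact h1.mono_left (Nat.hyperfilter_le_atTop)
  obtain ⟨g, U', hU1, hU2⟩ := hF (ε / 2) (half_pos hε) (Sq A) (phi h) (phi_ts h) π hπ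
  have hp : ∀ i, π (FreeGroup.of i) = f i := fun i => FreeGroup.lift_apply_of
  have ht1 := n2_tendsto h ((U' : Sq A) - (π (FreeGroup.of 2) : Sq A))
  have ht2 := n2_tendsto h (((FreeGroup.lift ![π (FreeGroup.of 0), π (FreeGroup.of 1), U'] g :
    unitary (Sq A)) : Sq A) - (π (FreeGroup.of 3) : Sq A))
  have hev1 := ht1.eventually (gt_mem_nhds (lt_of_le_of_lt hU1 (half_lt_self hε)))
  have hev2 := ht2.eventually (gt_mem_nhds (lt_of_le_of_lt hU2 (half_lt_self hε)))
  obtain ⟨n, hn1, hn2⟩ := (hev1.and hev2).exists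
  have hu1 : n2 τ (((c n 2)⁻¹ * ucoord n U' : unitary A) - (u : A)) < ε := by
    rw [← n2_unitary_mul (c n 2), mul_sub]
    have e1 : (c n 2 : A) * (((c n 2)⁻¹ * ucoord n U' : unitary A) : A) = (U' : Sq A) n := by
      have : c n 2 * ((c n 2)⁻¹ * ucoord n U') = ucoord n U' := mul_inv_cancel_left _ _
      exact congrArg (fun x : unitary A => (x : A)) this
    rw [e1]
    have e2 : (c n 2 : A) * (u : A) = (π (FreeGroup.of 2) : Sq A) n := by
      rw [hp]
      rfl
    rw [e2]
    exact hn1
  refine ⟨(c n 2)⁻¹ * ucoord n U', hu1,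
    (c n 3)⁻¹ * FreeGroup.lift ![c n 0, c n 1, ucoord n U'] g, ?_, ?_⟩
  · have hmemN : ∀ k, c n k ∈ Gp N ((c n 2)⁻¹ * ucoord n U') :=
      fun k => Subgroup.subset_closure (Or.inl (hcN n k))
    refine mul_mem (inv_mem (hmemN 3)) (lift_mem _ _ ?_ _)
    intro i
    fin_cases i
    · exact hmemN 0
    · exact hmemN 1
    · have h1 : (c n 2)⁻¹ * ucoord n U' ∈ Gp N ((c n 2)⁻¹ * ucoord n U') :=
        Subgroup.subset_closure (Or.inr rfl)
      have h2 := mul_mem (hmemN 2) h1
      rw [mul_inv_cancel_left] at h2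
      exact h2
  · rw [← n2_unitary_mul (c n 3), mul_sub]
    have e1 : (c n 3 : A) * (((c n 3)⁻¹ * FreeGroup.lift ![c n 0, c n 1, ucoord n U'] g :
        unitary A) : A) = ((FreeGroup.lift ![π (FreeGroup.of 0), π (FreeGroup.of 1), U'] g :
        unitary (Sq A)) : Sq A) n := by
      have h1 : c n 3 * ((c n 3)⁻¹ * FreeGroup.lift ![c n 0, c n 1, ucoord n U'] g)
          = FreeGroup.lift ![c n 0, c n 1, ucoord n U'] g := mul_inv_cancel_left _ _
      have h2 : ucoord n (FreeGroup.lift ![π (FreeGroup.of 0), π (FreeGroup.of 1), U'] g)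
          = FreeGroup.lift ![c n 0, c n 1, ucoord n U'] g := by
        rw [ucoord_lift]
        have h3 : (fun i => ucoord n ((![π (FreeGroup.of 0), π (FreeGroup.of 1), U'] :
            Fin 3 → unitary (Sq A)) i)) = ![c n 0, c n 1, ucoord n U'] := by
          funext i
          fin_cases i
          · show ucoord n (π (FreeGroup.of 0)) = c n 0
            rw [hp]
            exact ucoord_useq n _
          · show ucoord n (π (FreeGroup.of 1)) = c n 1
            rw [hp]
            exact ucoord_useq n _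
          · rfl
        rw [h3]
      rw [← ucoord_apply, h2]
      exact congrArg (fun x : unitary A => (x : A)) h1
    rw [e1]
    have e2 : (c n 3 : A) * (v : A) = (π (FreeGroup.of 3) : Sq A) n := by
      rw [hp]
      rfl
    rw [e2]
    exact hn2

end Pool.Agent.H569G.D
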