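import Mathlib
import Pool.Agent.H569G.Dens2

/-! Block 3 of room GEN, second part: Baire's theorem in the unitary group. -/

set_option autoImplicit false

open scoped ComplexOrder Topology BoundedContinuousFunction
open Filter

noncomputable section

namespace Pool.Agent.H569G.D

open Pool.Agent.H467F Pool.Agent.H735G

variable {A : Type} [CStarAlgebra A] {τ : A →ₗ[ℂ] ℂ}

/-- the unitary group with the 2-norm metric -/
def UT {τ : A →ₗ[ℂ] ℂ} (_h : TW τ) : Type := unitary A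

variable (h : TW τ)

/-- the metric -/
@[instance_reducible]
def metUT : MetricSpace (UT h) where
  dist u v := n2 τ (((show unitary A from u) : A) - ((show unitary A from v) : A))
  dist_self u := by
    show n2 τ (((show unitary A from u) : A) - ((show unitary A from u) : A)) = 0
    rw [sub_self, n2_zero]
  dist_comm u v := n2_sub_comm τ _ _
  dist_triangle u v w := h.n2_tri _ _ _
  eq_of_dist_eq_zero {u v} huv := by
    have h1 := h.eq_zero huv
    exact Subtype.ext (sub_eq_zero.1 h1)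

instance : MetricSpace (UT h) := metUT h

/-- a unitary as a point -/
def toU (u : unitary A) : UT h := u

/-- a point as a unitary -/
def ofU (u : UT h) : unitary A := u

theorem dist_def (u v : UT h) : dist u v = n2 τ ((ofU h u : A) - (ofU h v : A)) := rfl

theorem le_of_forall_small {x : ℝ} (hx : ∀ ε : ℝ, 0 < ε → x ≤ ε) : x ≤ 0 :=
  le_of_forall_pos_le_add fun ε hε => by rw [zero_add]; exact hx ε hε

instance completeUT : CompleteSpace (UT h) := by
  refine Metric.complete_of_convergent_controlled_sequences (fun n => (1 / 2 : ℝ) ^ n)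
    (fun n => by positivity) fun u hu => ?_
  obtain ⟨y, hy1, hy⟩ := h.complete (fun n => (ofU h (u n) : A)) (fun n => by
      nontriviality A
      exact (CStarRing.norm_coe_unitary (ofU h (u n))).le) fun n => by
    have h1 := hu n n (n + 1) le_rfl (Nat.le_succ n)
    exact h1.le
  have key : ∀ ε : ℝ, 0 < ε → ∃ n, n2 τ ((ofU h (u n) : A) - y) ≤ ε := by
    intro ε hε
    obtain ⟨n, hn⟩ := (hy.eventually (gt_mem_nhds hε)).exists
    exact ⟨n, hn.le⟩
  have h1 : star y * y = 1 := by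
    rw [← sub_eq_zero]
    refine h.eq_zero (le_antisymm (le_of_forall_small fun ε hε => ?_) (n2_nonneg _ _))
    obtain ⟨n, hn⟩ := key (ε / 2) (half_pos hε)
    have e1 : star y * y - 1 = star y * (y - (ofU h (u n) : A)) +
        star (y - (ofU h (u n) : A)) * (ofU h (u n) : A) := by
      rw [star_sub, sub_mul, Unitary.coe_star_mul_self]
      noncomm_ring
    rw [e1]
    refine (h.n2_add_le _ _).trans ?_
    have h2 := (n2_mul_le h (star y) (y - (ofU h (u n) : A))).1
    rw [norm_star] at h2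
    rw [n2_mul_unitary h, h.n2_star]
    rw [n2_sub_comm] at hn
    have h3 : ‖y‖ * n2 τ (y - (ofU h (u n) : A)) ≤ 1 * n2 τ (y - (ofU h (u n) : A)) :=
      mul_le_mul_of_nonneg_right hy1 (n2_nonneg _ _)
    linarith
  have h2 : y * star y = 1 := by
    rw [← sub_eq_zero]
    refine h.eq_zero (le_antisymm (le_of_forall_small fun ε hε => ?_) (n2_nonneg _ _))
    obtain ⟨n, hn⟩ := key (ε / 2) (half_pos hε)
    have e1 : y * star y - 1 = (y - (ofU h (u n) : A)) * star y +
        (ofU h (u n) : A) * star (y - (ofU h (u n) : A)) := by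
      have e0 : (ofU h (u n) : A) * star (ofU h (u n) : A) = 1 :=
        Unitary.mul_star_self_of_mem (ofU h (u n)).2
      rw [star_sub, mul_sub, e0]
      noncomm_ring
    rw [e1]
    refine (h.n2_add_le _ _).trans ?_
    have h2 := (n2_mul_le h (star y) (y - (ofU h (u n) : A))).2
    rw [norm_star] at h2
    rw [n2_unitary_mul, h.n2_star]
    rw [n2_sub_comm] at hn
    have h3 : n2 τ (y - (ofU h (u n) : A)) * ‖y‖ ≤ n2 τ (y - (ofU h (u n) : A)) * 1 :=
      mul_le_mul_of_nonneg_left hy1 (n2_nonneg _ _)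
    linarith
  refine ⟨toU h ⟨y, Unitary.mem_iff.2 ⟨h1, h2⟩⟩, ?_⟩
  rw [tendsto_iff_dist_tendsto_zero]
  exact hy

include h in
theorem n2_mul_sub_mul (x y x' y' : unitary A) :
    n2 τ (((x' * y' : unitary A) : A) - ((x * y : unitary A) : A)) ≤
      n2 τ ((x' : A) - (x : A)) + n2 τ ((y' : A) - (y : A)) := by
  have e1 : ((x' * y' : unitary A) : A) - ((x * y : unitary A) : A) =
      ((x' : A) - (x : A)) * (y' : A) + (x : A) * ((y' : A) - (y : A)) := by
    rw [Submonoid.coe_mul, Submonoid.coe_mul]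
    noncomm_ring
  rw [e1]
  refine (h.n2_add_le _ _).trans ?_
  rw [n2_mul_unitary h, n2_unitary_mul]

include h in
theorem n2_inv_sub_inv (x x' : unitary A) :
    n2 τ (((x'⁻¹ : unitary A) : A) - ((x⁻¹ : unitary A) : A)) = n2 τ ((x' : A) - (x : A)) := by
  have e1 : ((x'⁻¹ : unitary A) : A) - ((x⁻¹ : unitary A) : A) = star ((x' : A) - (x : A)) := by
    rw [star_sub]
    rfl
  rw [e1, h.n2_star]

include h in
/-- elements of the group move continuously with `u` -/
theorem gp_cont (N : StarSubalgebra ℂ A) (u : unitary A) (z : unitary A) (hz : z ∈ Gp N u) :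
    ∀ ε : ℝ, 0 < ε → ∃ δ : ℝ, 0 < δ ∧ ∀ u' : unitary A, n2 τ ((u' : A) - (u : A)) < δ →
      ∃ z' ∈ Gp N u', n2 τ ((z' : A) - (z : A)) < ε := by
  unfold Gp at hz
  induction hz using Subgroup.closure_induction with
  | mem x hx =>
    intro ε hε
    rcases hx with hx | hx
    · exact ⟨1, one_pos, fun u' _ => ⟨x, Subgroup.subset_closure (Or.inl hx), by
        rw [sub_self, n2_zero]; exact hε⟩⟩
    · have hx' : x = u := hx
      subst hx'
      exact ⟨ε, hε, fun u' hu' => ⟨u', Subgroup.subset_closure (Or.inr rfl), hu'⟩⟩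
  | one =>
    intro ε hε
    exact ⟨1, one_pos, fun u' _ => ⟨1, one_mem _, by rw [sub_self, n2_zero]; exact hε⟩⟩
  | mul x y hx hy ihx ihy =>
    intro ε hε
    obtain ⟨δ₁, hδ₁, h₁⟩ := ihx (ε / 2) (half_pos hε)
    obtain ⟨δ₂, hδ₂, h₂⟩ := ihy (ε / 2) (half_pos hε)
    refine ⟨min δ₁ δ₂, lt_min hδ₁ hδ₂, fun u' hu' => ?_⟩
    obtain ⟨x', hx', hx2⟩ := h₁ u' (lt_of_lt_of_le hu' (min_le_left _ _))
    obtain ⟨y', hy', hy2⟩ := h₂ u' (lt_of_lt_of_le hu' (min_le_right _ _))
    refine ⟨x' * y', mul_mem hx' hy', ?_⟩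
    have := n2_mul_sub_mul h x y x' y'
    linarith
  | inv x hx ihx =>
    intro ε hε
    obtain ⟨δ, hδ, h₁⟩ := ihx ε hε
    refine ⟨δ, hδ, fun u' hu' => ?_⟩
    obtain ⟨x', hx', hx2⟩ := h₁ u' hu'
    refine ⟨x'⁻¹, inv_mem hx', ?_⟩
    rw [n2_inv_sub_inv h]
    exact hx2

/-- the set of the `u` for which `v` is `ε`-close to the group -/
def Og (N : StarSubalgebra ℂ A) (v : unitary A) (ε : ℝ) : Set (UT h) :=
  {u | ∃ z ∈ Gp N (ofU h u), n2 τ ((z : A) - (v : A)) < ε}

theorem isOpen_Og (N : StarSubalgebra ℂ A) (v : unitary A) (ε : ℝ) : IsOpen (Og h N v ε) := by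
  rw [Metric.isOpen_iff]
  intro u hu
  obtain ⟨z, hz, hzv⟩ := hu
  obtain ⟨δ, hδ, hd⟩ := gp_cont h N (ofU h u) z hz (ε - n2 τ ((z : A) - (v : A)))
    (sub_pos.2 hzv)
  refine ⟨δ, hδ, fun u' hu' => ?_⟩
  rw [Metric.mem_ball, dist_def] at hu'
  obtain ⟨z', hz', hz2⟩ := hd (ofU h u') hu'
  refine ⟨z', hz', ?_⟩
  have := h.n2_tri (z' : A) (z : A) (v : A)
  linarith

theorem dense_Og (hF : FlowW) (N : StarSubalgebra ℂ A) (hAF : AF τ N) (v : unitary A) (ε : ℝ)
    (hε : 0 < ε) : Dense (Og h N v ε) := by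
  rw [Metric.dense_iff]
  intro u r hr
  obtain ⟨u', hu', z, hz, hzv⟩ := density hF h N hAF (ofU h u) v (min r ε) (lt_min hr hε)
  refine ⟨toU h u', ?_, z, hz, lt_of_lt_of_le hzv (min_le_right _ _)⟩
  rw [Metric.mem_ball, dist_def]
  exact lt_of_lt_of_le hu' (min_le_left _ _)

include h in
/-- the unitary group is separable -/
theorem sep_unitary (hS : SepT τ) : ∃ v : ℕ → unitary A, ∀ (x : unitary A) (ε : ℝ), 0 < ε →
    ∃ n, n2 τ ((v n : A) - (x : A)) < ε := by
  obtain ⟨s, hs⟩ := hS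
  have h0 : ∀ p : ℕ × ℕ, ∃ v : unitary A, (∃ w : unitary A, n2 τ ((w : A) - s p.1) <
      1 / ((p.2 : ℝ) + 1)) → n2 τ ((v : A) - s p.1) < 1 / ((p.2 : ℝ) + 1) := by
    intro p
    by_cases hp : ∃ w : unitary A, n2 τ ((w : A) - s p.1) < 1 / ((p.2 : ℝ) + 1)
    · obtain ⟨w, hw⟩ := hp
      exact ⟨w, fun _ => hw⟩
    · exact ⟨1, fun h => absurd h hp⟩
  choose v hv using h0
  refine ⟨fun n => v n.unpair, fun x ε hε => ?_⟩
  obtain ⟨m, hm⟩ := exists_nat_one_div_lt (half_pos hε)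
  obtain ⟨n, hn⟩ := hs (x : A) (1 / ((m : ℝ) + 1)) (by positivity)
  have h1 := hv (n, m) ⟨x, hn⟩
  refine ⟨Nat.pair n m, ?_⟩
  show n2 τ ((v (Nat.unpair (Nat.pair n m)) : A) - (x : A)) < ε
  rw [Nat.unpair_pair]
  have h2 := h.n2_tri (v (n, m) : A) (s n) (x : A)
  rw [n2_sub_comm τ (s n) (x : A)] at h2
  have h3 : n2 τ ((v (n, m) : A) - s n) < 1 / ((m : ℝ) + 1) := h1
  linarith

/-- elements of the group lie in the star algebra generated by `N` and `u` -/
theorem gp_sub (N : StarSubalgebra ℂ A) (u z : unitary A) (hz : z ∈ Gp N u) :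
    (z : A) ∈ StarAlgebra.adjoin ℂ ((N : Set A) ∪ {(u : A)}) := by
  unfold Gp at hz
  induction hz using Subgroup.closure_induction with
  | mem x hx =>
    rcases hx with hx | hx
    · exact StarAlgebra.subset_adjoin ℂ _ (Or.inl hx)
    · have hx' : x = u := hx
      subst hx'
      exact StarAlgebra.subset_adjoin ℂ _ (Or.inr rfl)
  | one => exact one_mem _
  | mul x y _ _ ihx ihy => exact mul_mem ihx ihy
  | inv x _ ihx => exact star_mem ihx

/-- the closure of a star subalgebra is a subspace -/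
def ClSub (S : StarSubalgebra ℂ A) : Submodule ℂ A where
  carrier := Cl τ (S : Set A)
  add_mem' {x y} hx hy ε hε := by
    obtain ⟨x', hx', hx2⟩ := hx (ε / 2) (half_pos hε)
    obtain ⟨y', hy', hy2⟩ := hy (ε / 2) (half_pos hε)
    refine ⟨x' + y', add_mem hx' hy', ?_⟩
    have e : x + y - (x' + y') = (x - x') + (y - y') := by abel
    rw [e]
    have := h.n2_add_le (x - x') (y - y')
    linarith
  zero_mem' ε hε := ⟨0, zero_mem _, by rw [sub_self, n2_zero]; exact hε⟩
  smul_mem' c x hx ε hε := by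
    have hp : 0 < ‖c‖ + 1 := by positivity
    obtain ⟨x', hx', hx2⟩ := hx (ε / (‖c‖ + 1)) (by positivity)
    refine ⟨c • x', S.smul_mem hx' c, ?_⟩
    rw [← smul_sub, n2_smul]
    rw [lt_div_iff₀ hp] at hx2
    have := n2_nonneg τ (x - x')
    nlinarith

/-- BLOCK 3 of room GEN, from the weaker form of the flow theorem -/
theorem density3 (hF : FlowW) (A : Type) [CStarAlgebra A] (τ : A →ₗ[ℂ] ℂ) (h : TW τ) (hS : SepT τ)
    (N : StarSubalgebra ℂ A) (hAF : AF τ N) : ∃ u : unitary A, GenT τ ((N : Set A) ∪ {(u : A)}) := by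
  obtain ⟨v, hv⟩ := sep_unitary h hS
  have hne : Nonempty (UT h) := ⟨toU h 1⟩
  have hd : Dense (⋂ p : ℕ × ℕ, Og h N (v p.1) (1 / ((p.2 : ℝ) + 1))) :=
    dense_iInter_of_isOpen (fun p => isOpen_Og h N _ _)
      (fun p => dense_Og h hF N hAF _ _ (by positivity))
  obtain ⟨u, hu⟩ := hd.nonempty
  rw [Set.mem_iInter] at hu
  refine ⟨ofU h u, fun x => ?_⟩
  have h1 : (unitary A : Set A) ⊆ ClSub h (StarAlgebra.adjoin ℂ ((N : Set A) ∪ {(ofU h u : A)})) := by
    intro w hw ε hε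
    obtain ⟨m, hm⟩ := exists_nat_one_div_lt (half_pos hε)
    obtain ⟨n, hn⟩ := hv ⟨w, hw⟩ (ε / 2) (half_pos hε)
    obtain ⟨z, hz, hz2⟩ := hu (n, m)
    refine ⟨(z : A), gp_sub N _ z hz, ?_⟩
    have h2 := h.n2_tri (z : A) (v n : A) w
    rw [n2_sub_comm]
    have h3 : n2 τ ((z : A) - (v n : A)) < 1 / ((m : ℝ) + 1) := hz2
    have h4 : n2 τ ((v n : A) - w) < ε / 2 := hn
    linarith
  have h2 := Submodule.span_le.2 h1
  rw [CStarAlgebra.span_unitary] at h2
  exact h2 (Submodule.mem_top (x := x))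

/-- BLOCK 3 of room GEN -/
theorem densityThm2 : DensityThm2 := fun hF A _ τ h hS N hAF =>
  density3 (FlowW.of hF) A τ h hS N hAF

end Pool.Agent.H569G.D
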