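import Mathlib
import Pool.Agent.H581R.FF.Stubs

/-! ROOM GEN, block 3 (density + Baire), and the flow theorem of shared note 818 for an abstract
unital C*-algebra `A` with a tracial state `φ` (not necessarily faithful). Definitions and
statements of all the tasks. The purely algebraic statements (DER, L1, BND, TR, STAR, FORM, FIX0,
AD, L2, CORE, WORD) are those of `Pool.Agent.H581R.FF.Stubs`. -/

open scoped ComplexOrder ComplexConjugate Topology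
open Filter

namespace Pool.Agent.H569G

open Pool.Agent.H581R.FF

/-- tracial state, not necessarily faithful -/
structure TSt {A : Type} [CStarAlgebra A] (φ : A →ₗ[ℂ] ℂ) : Prop where
  one : φ 1 = 1
  comm : ∀ x y, φ (x * y) = φ (y * x)
  nonneg : ∀ x, 0 ≤ φ (star x * x)

/-- the 2-seminorm of a functional -/
noncomputable def nn {A : Type} [CStarAlgebra A] (φ : A →ₗ[ℂ] ℂ) (x : A) : ℝ :=
  Real.sqrt (φ (star x * x)).re

/-- `π` is a family of free Haar unitaries for `φ` -/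
def StdA {κ A : Type} [CStarAlgebra A] (φ : A →ₗ[ℂ] ℂ) (π : FreeGroup κ →* unitary A) : Prop :=
  ∀ w : FreeGroup κ, w ≠ 1 → φ (π w : A) = 0

/-- `π'` is obtained from `π` by the flow of `D` for time `t` -/
def FlowA {κ A : Type} [CStarAlgebra A] (D : GR κ →ₗ[ℂ] GR κ) (t : ℝ)
    (π π' : FreeGroup κ →* unitary A) : Prop :=
  ∀ f : GR κ, HasSum (fun n : ℕ => ((t : ℂ) ^ n / (n.factorial : ℂ)) • ev π (D^[n] f)) (ev π' f)

/-- basic properties of the 2-seminorm -/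
def A_NN : Prop := ∀ (A : Type) [CStarAlgebra A] (φ : A →ₗ[ℂ] ℂ), TSt φ →
  (∀ x y, nn φ (x + y) ≤ nn φ x + nn φ y) ∧ (∀ x y, nn φ (x - y) ≤ nn φ x + nn φ y) ∧
  (∀ (s : ℂ) x, nn φ (s • x) = ‖s‖ * nn φ x) ∧
  (∀ x y, nn φ (x * y) ≤ ‖x‖ * nn φ y) ∧ (∀ x y, nn φ (x * y) ≤ nn φ x * ‖y‖) ∧
  (∀ x, nn φ x ≤ ‖x‖) ∧ (∀ x, nn φ (star x) = nn φ x) ∧ (∀ x, 0 ≤ nn φ x) ∧
  (∀ (u : unitary A) x, nn φ ((u : A) * x) = nn φ x ∧ nn φ (x * (u : A)) = nn φ x) ∧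
  (∀ x, ‖φ x‖ ≤ nn φ x) ∧ (∀ x, φ (star x) = conj (φ x)) ∧
  (∀ x, φ (star x * x) = ((nn φ x ^ 2 : ℝ) : ℂ))

/-- evaluations are contractive for the `ℓ¹`-norm -/
def A_EV1 : Prop := ∀ (κ A : Type) [CStarAlgebra A] (π : FreeGroup κ →* unitary A) (f : GR κ),
  ‖ev π f‖ ≤ l1 f

/-- evaluations are isometric for the 2-norms -/
def A_EV2 : Prop := ∀ (κ A : Type) [CStarAlgebra A] (φ : A →ₗ[ℂ] ℂ)
  (π : FreeGroup κ →* unitary A), TSt φ → StdA φ π →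
  ∀ f : GR κ, φ (ev π f) = f.coeff 1 ∧ nn φ (ev π f) = l2 f

/-- evaluations and the involution -/
def A_EVST : Prop := ∀ (κ A : Type) [CStarAlgebra A] (π : FreeGroup κ →* unitary A) (f : GR κ),
  ev π (st f) = star (ev π f)

/-- existence of the flow for short times -/
def A_FLOW : Prop := ∀ (κ : Type) [DecidableEq κ] (D : GR κ →ₗ[ℂ] GR κ), IsDer D →
  ∀ K : ℝ, 0 < K → Bdd D K → ∀ (A : Type) [CStarAlgebra A] (π : FreeGroup κ →* unitary A) (t : ℝ),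
  |t| * K < 1 → ∃ π' : FreeGroup κ →* unitary A, FlowA D t π π'

/-- second order Taylor bound -/
def A_TAY : Prop := ∀ (κ : Type) [DecidableEq κ] (D : GR κ →ₗ[ℂ] GR κ), IsDer D →
  ∀ K : ℝ, 0 < K → Bdd D K → ∀ f : GR κ, ∃ C : ℝ, 0 ≤ C ∧
  ∀ (A : Type) [CStarAlgebra A] (π π' : FreeGroup κ →* unitary A) (t : ℝ), |t| * K ≤ 1 / 2 →
  FlowA D t π π' → ‖ev π' f - ev π f - (t : ℂ) • ev π (D f)‖ ≤ C * t ^ 2

/-- the flow preserves the law -/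
def A_FSTD : Prop := ∀ (κ : Type) (D : GR κ →ₗ[ℂ] GR κ), IsDer D →
  ∀ (A : Type) [CStarAlgebra A] (φ : A →ₗ[ℂ] ℂ) (π π' : FreeGroup κ →* unitary A) (t : ℝ),
  TSt φ → FlowA D t π π' → StdA φ π → StdA φ π'

/-- elements killed by the derivation do not move -/
def A_FFIX : Prop := ∀ (κ : Type) (D : GR κ →ₗ[ℂ] GR κ)
  (A : Type) [CStarAlgebra A] (π π' : FreeGroup κ →* unitary A) (t : ℝ),
  FlowA D t π π' → ∀ w : FreeGroup κ, D (bs w) = 0 → π' w = π w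

/-- `arg` is approximated by trigonometric polynomials -/
def A_FOU : Prop := ∀ ε : ℝ, 0 < ε → ∃ k : ℤ →₀ ℂ, k 0 = 0 ∧ (∀ m, k (-m) = conj (k m)) ∧
  nk k ≤ 2 ∧ ∀ (A : Type) [CStarAlgebra A] (φ : A →ₗ[ℂ] ℂ) (V : unitary A), TSt φ →
    (∀ m : ℤ, m ≠ 0 → φ ((V ^ m : unitary A) : A) = 0) →
    nn φ (NormedSpace.exp (Complex.I • k.sum fun m s => s • ((V ^ m : unitary A) : A))
      - (V : A)) < ε

/-- flow for time one -/
def A_NSTEP : Prop := ∀ (κ : Type) [DecidableEq κ] (D : GR κ →ₗ[ℂ] GR κ), IsDer D →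
  ∀ K : ℝ, 0 < K → Bdd D K → ∀ (k0 E : GR κ) (g u : FreeGroup κ),
  D (bs g) = Complex.I • ((k0 + E) * bs g) → D k0 = 0 → st k0 = k0 → ∀ η : ℝ, 0 < η →
  ∀ (A : Type) [CStarAlgebra A] (φ : A →ₗ[ℂ] ℂ) (π : FreeGroup κ →* unitary A), TSt φ →
  StdA φ π →
  ∃ π' : FreeGroup κ →* unitary A, StdA φ π' ∧
    (∀ w, D (bs w) = 0 → π' w = π w) ∧
    nn φ ((π' u : A) - (π u : A)) ≤ l2 (D (bs u)) + η ∧
    nn φ ((π' g : A) - NormedSpace.exp (Complex.I • ev π k0) * (π g : A)) ≤ l2 E + η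

/-- THE FLOW THEOREM (stage lemma) for an abstract C*-algebra with tracial state -/
def A_STAGE : Prop := ∀ (ι A : Type) [CStarAlgebra A] (φ : A →ₗ[ℂ] ℂ) (a b u : ι),
  a ≠ b → a ≠ u → b ≠ u → ∀ π : FreeGroup (Option ι) →* unitary A, TSt φ → StdA φ π →
  ∀ ε : ℝ, 0 < ε → ∃ (π' : FreeGroup (Option ι) →* unitary A) (g : FreeGroup ι),
    StdA φ π' ∧ g ∈ Subgroup.closure {FreeGroup.of a, FreeGroup.of b, FreeGroup.of u} ∧
    (∀ i : ι, i ≠ u → π' (FreeGroup.of (some i)) = π (FreeGroup.of (some i))) ∧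
    nn φ ((π' (FreeGroup.of (some u)) : A) - (π (FreeGroup.of (some u)) : A)) < ε ∧
    nn φ ((π' (jj g) : A) - (π vv : A)) < ε

/-! ### ultralimit -/

/-- the ultralimit of a tracial state on the algebra of bounded sequences -/
def A_ULT : Prop := ∀ (B : Type) [CStarAlgebra B] (τ : B →ₗ[ℂ] ℂ), TSt τ →
  ∃ (A : Type) (_ : CStarAlgebra A) (φ : A →ₗ[ℂ] ℂ) (e : ℕ → A →⋆ₐ[ℂ] B), TSt φ ∧
    (∀ x, Tendsto (fun n => τ (e n x)) (hyperfilter ℕ : Filter ℕ) (𝓝 (φ x))) ∧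
    ∀ y : ℕ → unitary B, ∃ U : unitary A, ∀ n, e n (U : A) = (y n : B)

/-! ### density and Baire -/

/-- the four unitaries `a, b, w u, w₀ v` -/
def four {B : Type} [CStarAlgebra B] (a b w w0 u v : unitary B) : Option (Fin 3) → unitary B :=
  fun o => o.elim (w0 * v) ![a, b, w * u]

/-- output of the freeness block: `N` (given by its group of unitaries) contains `a, b, w, w₀` such
that `a, b, w u, w₀ v` are approximately free Haar unitaries, for arbitrary `u`, `v` -/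
def FreeOut {B : Type} [CStarAlgebra B] (τ : B →ₗ[ℂ] ℂ) (N : Subgroup (unitary B)) : Prop :=
  ∀ (u v : unitary B) (d : ℕ) (δ : ℝ), 0 < δ → ∃ a ∈ N, ∃ b ∈ N, ∃ w ∈ N, ∃ w0 ∈ N,
    ∀ r : FreeGroup (Option (Fin 3)), r ≠ 1 → r.norm ≤ d →
      ‖τ ((FreeGroup.lift (four a b w w0 u v) r : unitary B) : B)‖ ≤ δ

/-- density of the good unitaries -/
def A_DENS : Prop := ∀ (B : Type) [CStarAlgebra B] (τ : B →ₗ[ℂ] ℂ) (N : Subgroup (unitary B)),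
  TSt τ → FreeOut τ N → ∀ (u v : unitary B) (ε : ℝ), 0 < ε → ∃ u' : unitary B,
    nn τ ((u' : B) - (u : B)) < ε ∧ ∃ z ∈ Subgroup.closure ((N : Set (unitary B)) ∪ {u'}),
      nn τ ((z : B) - (v : B)) < ε

/-- BLOCK 3: for a generic `u` the group generated by the unitaries of `N` and by `u` is dense -/
def A_BAIRE : Prop := ∀ (B : Type) [CStarAlgebra B] (τ : B →ₗ[ℂ] ℂ) (N : Subgroup (unitary B)),
  TSt τ → (∀ x, τ (star x * x) = 0 → x = 0) →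
  (∀ x : ℕ → B, (∀ n, ‖x n‖ ≤ 1) → (∀ n, nn τ (x n - x (n + 1)) ≤ (1 / 2) ^ n) →
    ∃ y, ‖y‖ ≤ 1 ∧ Tendsto (fun n => nn τ (x n - y)) atTop (𝓝 0)) →
  (∃ v : ℕ → unitary B, ∀ (x : unitary B) (ε : ℝ), 0 < ε → ∃ n, nn τ ((x : B) - (v n : B)) < ε) →
  (∀ (u v : unitary B) (ε : ℝ), 0 < ε → ∃ u' : unitary B,
    nn τ ((u' : B) - (u : B)) < ε ∧ ∃ z ∈ Subgroup.closure ((N : Set (unitary B)) ∪ {u'}),
      nn τ ((z : B) - (v : B)) < ε) →
  ∃ u : unitary B, ∀ (v : unitary B) (ε : ℝ), 0 < ε →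
    ∃ z ∈ Subgroup.closure ((N : Set (unitary B)) ∪ {u}), nn τ ((z : B) - (v : B)) < ε

end Pool.Agent.H569G
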