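import Mathlib
import Pool.Agent.H569G.Stubs
import Pool.Agent.H569G.Baire2

/-! The weak form of the flow theorem follows from `A_STAGE`. -/

set_option autoImplicit false

open scoped ComplexOrder Topology

noncomputable section

namespace Pool.Agent.H569G.D

open Pool.Agent.H467F Pool.Agent.H735G Pool.Agent.H581R.FF

/-- renaming of the generators -/
def sg : Option (Fin 3) → Fin 4 := fun o => o.elim 3 Fin.castSucc

theorem sg_inj : Function.Injective sg := by decide

theorem flowW_of_stage (hst : A_STAGE) : FlowW := by
  intro ε hε A _ φ hφ π hπ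
  have hT : TSt φ := ⟨hφ.one, hφ.comm, hφ.nonneg⟩
  let π₀ : FreeGroup (Option (Fin 3)) →* unitary A := π.comp (FreeGroup.map sg)
  have hstd : StdA φ π₀ := by
    intro w hw
    have h1 : FreeGroup.map sg w ≠ 1 := by
      intro h2
      apply hw
      apply FreeGroup.map_injective sg_inj
      rw [h2, map_one]
    have h3 := hπ (FreeGroup.map sg w)
    rw [if_neg h1] at h3
    exact h3
  obtain ⟨π', g, -, -, hfix, hu, hv⟩ := hst (Fin 3) A φ 0 1 2 (by decide) (by decide) (by decide)
    π₀ hT hstd ε hε
  refine ⟨g, π' (FreeGroup.of (some 2)), ?_, ?_⟩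
  · have e1 : π₀ (FreeGroup.of (some 2)) = π (FreeGroup.of 2) := by
      show π (FreeGroup.map sg (FreeGroup.of (some 2))) = _
      rw [FreeGroup.map.of]
      rfl
    rw [e1] at hu
    exact hu.le
  · have e1 : π₀ vv = π (FreeGroup.of 3) := by
      show π (FreeGroup.map sg (FreeGroup.of none)) = _
      rw [FreeGroup.map.of]
      rfl
    have e0 : ∀ i : Fin 3, i ≠ 2 → π' (FreeGroup.of (some i)) = π (FreeGroup.of i.castSucc) := by
      intro i hi
      rw [hfix i hi]
      show π (FreeGroup.map sg (FreeGroup.of (some i))) = _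
      rw [FreeGroup.map.of]
      rfl
    have e2 : π' (jj g) = FreeGroup.lift ![π (FreeGroup.of 0), π (FreeGroup.of 1),
        π' (FreeGroup.of (some 2))] g := by
      have h1 : π'.comp jj = FreeGroup.lift ![π (FreeGroup.of 0), π (FreeGroup.of 1),
        π' (FreeGroup.of (some 2))] := by
        refine FreeGroup.ext_hom _ _ fun i => ?_
        rw [MonoidHom.comp_apply, FreeGroup.map.of, FreeGroup.lift_apply_of]
        fin_cases i
        · exact e0 0 (by decide)
        · exact e0 1 (by decide)
        · rfl
      exact DFunLike.congr_fun h1 g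
    rw [e1, e2] at hv
    exact hv.le

end Pool.Agent.H569G.D
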