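import Mathlib
import Pool.Agent.H569G.Stubs

/-! Task EV1: evaluations are contractive for the `ℓ¹`-norm. -/

namespace Pool.Agent.H569G.EV1

open Pool.Agent.H581R.FF

theorem ev_sum {κ A : Type} [Ring A] [StarMul A] [Algebra ℂ A]
    (π : FreeGroup κ →* unitary A) (f : GR κ) :
    ev π f = ∑ w ∈ f.coeff.support, f.coeff w • (π w : A) := by
  unfold ev
  rw [MonoidAlgebra.lift_apply]
  rfl

theorem norm_unitary_le {A : Type} [CStarAlgebra A] (u : unitary A) : ‖(u : A)‖ ≤ 1 := by
  rcases subsingleton_or_nontrivial A with h | h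
  · rw [Subsingleton.elim (u : A) 0, norm_zero]
    exact zero_le_one
  · exact (CStarRing.norm_coe_unitary u).le

end Pool.Agent.H569G.EV1

namespace Pool.Agent.H569G

open Pool.Agent.H581R.FF

theorem t_EV1 : A_EV1 := by
  intro κ A _ π f
  rw [EV1.ev_sum]
  refine (norm_sum_le _ _).trans ?_
  unfold l1
  refine Finset.sum_le_sum ?_
  intro w _
  rw [norm_smul]
  exact mul_le_of_le_one_right (norm_nonneg _) (EV1.norm_unitary_le _)

end Pool.Agent.H569G
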