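import Mathlib
import Pool.Agent.H569G.Stubs

/-! Task EV2: trace and 2-seminorm of evaluations at a family of free Haar unitaries. -/

namespace Pool.Agent.H569G.EV2

open Pool.Agent.H581R.FF
open scoped ComplexConjugate

theorem ev_sum {κ A : Type} [Ring A] [StarMul A] [Algebra ℂ A]
    (π : FreeGroup κ →* unitary A) (f : GR κ) :
    ev π f = ∑ w ∈ f.coeff.support, f.coeff w • (π w : A) := by
  unfold ev
  rw [MonoidAlgebra.lift_apply]
  rfl

theorem star_mul_coe {κ A : Type} [CStarAlgebra A] (π : FreeGroup κ →* unitary A)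
    (v w : FreeGroup κ) : star (π v : A) * (π w : A) = (π (v⁻¹ * w) : A) := by
  rw [map_mul, map_inv]
  rfl

theorem phi_pi {κ A : Type} [CStarAlgebra A] (φ : A →ₗ[ℂ] ℂ) (π : FreeGroup κ →* unitary A)
    (h1 : φ 1 = 1) (h : StdA φ π) [DecidableEq (FreeGroup κ)] (w : FreeGroup κ) :
    φ (π w : A) = if w = 1 then 1 else 0 := by
  by_cases hw : w = 1
  · subst hw
    rw [if_pos rfl, map_one]
    exact h1
  · rw [if_neg hw]
    exact h w hw

end Pool.Agent.H569G.EV2

namespace Pool.Agent.H569G

open Pool.Agent.H581R.FF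
open scoped ComplexConjugate

theorem t_EV2 : A_EV2 := by
  intro κ A _ φ π hφ h f
  classical
  have hp := EV2.phi_pi φ π hφ.one h
  constructor
  · rw [EV2.ev_sum, map_sum]
    simp_rw [map_smul, smul_eq_mul, hp, mul_ite, mul_one, mul_zero]
    rw [Finset.sum_ite_eq']
    split_ifs with h1
    · rfl
    · exact (Finsupp.notMem_support_iff.1 h1).symm
  · unfold nn l2
    have key : φ (star (ev π f) * ev π f) = ((∑ w ∈ f.coeff.support, ‖f.coeff w‖ ^ 2 : ℝ) : ℂ) := by
      rw [EV2.ev_sum, star_sum, Finset.sum_mul_sum, map_sum]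
      push_cast
      refine Finset.sum_congr rfl fun v hv => ?_
      rw [map_sum]
      have e1 : ∀ w ∈ f.coeff.support, φ (star (f.coeff v • (π v : A)) * (f.coeff w • (π w : A)))
          = if v = w then conj (f.coeff v) * f.coeff w else 0 := by
        intro w _
        rw [star_smul, smul_mul_smul_comm, map_smul, smul_eq_mul, EV2.star_mul_coe, hp]
        by_cases hvw : v = w
        · subst hvw
          rw [if_pos (inv_mul_cancel v), if_pos rfl, mul_one]
          rfl
        · rw [if_neg hvw, if_neg (fun h2 => hvw (inv_mul_eq_one.1 h2)), mul_zero]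
      rw [Finset.sum_congr rfl e1, Finset.sum_ite_eq, if_pos hv]
      exact Complex.conj_mul' _
    rw [key, Complex.ofReal_re]

end Pool.Agent.H569G
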