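import Mathlib
import Pool.Agent.H569G.Stubs

/-! Elements killed by the derivation do not move (abstract version). -/

namespace Pool.Agent.H569G

open Pool.Agent.H581R.FF

namespace FFIX

theorem ev_bs {κ A : Type} [CStarAlgebra A] (π : FreeGroup κ →* unitary A) (w : FreeGroup κ) :
    ev π (bs w) = (π w : A) := by
  unfold ev bs
  rw [MonoidAlgebra.lift_single]
  simp

theorem iter_zero {κ : Type} (D : GR κ →ₗ[ℂ] GR κ) (n : ℕ) : D^[n] (0 : GR κ) = 0 := by
  induction n with
  | zero => rfl
  | succ n ih => rw [Function.iterate_succ_apply, map_zero, ih]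

end FFIX

theorem t_FFIX : A_FFIX := by
  intro κ D A _ π π' t hF w hw
  have h := hF (bs w)
  have h0 : HasSum (fun n : ℕ => ((t : ℂ) ^ n / (n.factorial : ℂ)) • ev π (D^[n] (bs w)))
      (ev π (bs w)) := by
    have h1 := hasSum_single (f := fun n : ℕ =>
      ((t : ℂ) ^ n / (n.factorial : ℂ)) • ev π (D^[n] (bs w))) 0 (fun n hn => by
        obtain ⟨m, rfl⟩ := Nat.exists_eq_succ_of_ne_zero hn
        change ((t : ℂ) ^ (m + 1) / ((m + 1).factorial : ℂ)) • ev π (D^[m + 1] (bs w)) = 0
        rw [Function.iterate_succ_apply, hw, FFIX.iter_zero, map_zero, smul_zero])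
    simpa using h1
  have h2 := h.unique h0
  rw [FFIX.ev_bs, FFIX.ev_bs] at h2
  exact Subtype.ext h2

end Pool.Agent.H569G
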