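import Mathlib
import Pool.Agent.H569G.Stubs

/-! Task FLOW: existence of the flow for short times, for an abstract C*-algebra (the argument of
`Pool.Agent.H581R.FF.TFLOW`). -/

namespace Pool.Agent.H569G

open Pool.Agent.H581R.FF
open scoped ComplexConjugate
open Finset

namespace FLOW

/-- the terms of the series -/
noncomputable def FLOW_a {κ A : Type} [CStarAlgebra A] (D : GR κ →ₗ[ℂ] GR κ) (t : ℝ)
    (π : FreeGroup κ →* unitary A) (n : ℕ) (f : GR κ) : A :=
  ((t : ℂ) ^ n / (n.factorial : ℂ)) • ev π (D^[n] f)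

theorem FLOW_iter_add {κ : Type} (D : GR κ →ₗ[ℂ] GR κ) (n : ℕ) (f g : GR κ) :
    D^[n] (f + g) = D^[n] f + D^[n] g := by
  rw [← Module.End.coe_pow, map_add]

theorem FLOW_iter_smul {κ : Type} (D : GR κ →ₗ[ℂ] GR κ) (n : ℕ) (c : ℂ) (f : GR κ) :
    D^[n] (c • f) = c • D^[n] f := by
  rw [← Module.End.coe_pow, map_smul]

theorem FLOW_iter_zero {κ : Type} (D : GR κ →ₗ[ℂ] GR κ) (n : ℕ) :
    D^[n] (0 : GR κ) = 0 := by
  rw [← Module.End.coe_pow, map_zero]

theorem FLOW_iter_mul {κ : Type} (D : GR κ →ₗ[ℂ] GR κ) (hD : ∀ x y, D (x * y) = D x * y + x * D y)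
    (n : ℕ) (f g : GR κ) :
    D^[n] (f * g) = ∑ ij ∈ antidiagonal n, n.choose ij.1 • (D^[ij.1] f * D^[ij.2] g) := by
  induction n with
  | zero => simp
  | succ n ih =>
    rw [sum_antidiagonal_choose_succ_nsmul (fun i j => D^[i] f * D^[j] g) n]
    rw [Function.iterate_succ_apply', ih, map_sum]
    simp only [map_nsmul, hD, Function.iterate_succ_apply', smul_add, sum_add_distrib]
    rw [add_comm]
    congr 1
    refine sum_congr rfl fun ij hij => ?_
    rw [n.choose_symm_of_eq_add (Finset.HasAntidiagonal.mem_antidiagonal.mp hij).symm]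

section

variable {κ A : Type} [CStarAlgebra A] (D : GR κ →ₗ[ℂ] GR κ) (t : ℝ)
    (π : FreeGroup κ →* unitary A)

theorem FLOW_a_add (n : ℕ) (f g : GR κ) :
    FLOW_a D t π n (f + g) = FLOW_a D t π n f + FLOW_a D t π n g := by
  unfold FLOW_a
  rw [FLOW_iter_add, map_add, smul_add]

theorem FLOW_a_smul (n : ℕ) (c : ℂ) (f : GR κ) :
    FLOW_a D t π n (c • f) = c • FLOW_a D t π n f := by
  unfold FLOW_a
  rw [FLOW_iter_smul, map_smul, smul_comm]

theorem FLOW_a_mul (hD : ∀ x y, D (x * y) = D x * y + x * D y) (n : ℕ) (f g : GR κ) :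
    FLOW_a D t π n (f * g) = ∑ ij ∈ antidiagonal n, FLOW_a D t π ij.1 f * FLOW_a D t π ij.2 g := by
  unfold FLOW_a
  rw [FLOW_iter_mul D hD, map_sum, smul_sum]
  refine sum_congr rfl fun ij hij => ?_
  rw [map_nsmul, map_mul, smul_mul_smul_comm, ← Nat.cast_smul_eq_nsmul ℂ, smul_smul]
  congr 1
  obtain ⟨i, j⟩ := ij
  rw [Finset.HasAntidiagonal.mem_antidiagonal] at hij
  simp only at hij
  subst hij
  simp only
  have h1 : ((i + j).factorial : ℂ) = (i + j).choose i * i.factorial * j.factorial := by
    rw [← Nat.add_choose_mul_factorial_mul_factorial i j, Nat.choose_symm_add]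
    push_cast
    ring
  have h2 : (i.factorial : ℂ) ≠ 0 := by exact_mod_cast i.factorial_ne_zero
  have h3 : (j.factorial : ℂ) ≠ 0 := by exact_mod_cast j.factorial_ne_zero
  have h4 : ((i + j).factorial : ℂ) ≠ 0 := by exact_mod_cast (i + j).factorial_ne_zero
  field_simp
  rw [h1]
  ring

theorem FLOW_a_star (h3 : A_EVST) (hD : ∀ x, D (st x) = st (D x)) (n : ℕ) (f : GR κ) :
    FLOW_a D t π n (st f) = star (FLOW_a D t π n f) := by
  have e : D^[n] (st f) = st (D^[n] f) := by
    induction n with
    | zero => rfl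
    | succ n ih => rw [Function.iterate_succ_apply', ih, hD, ← Function.iterate_succ_apply' (f := D)]
  unfold FLOW_a
  rw [e, h3 κ A π _, star_smul]
  congr 1
  simp

end

theorem FLOW_st_bs {κ : Type} (w : FreeGroup κ) : st (bs w) = bs w⁻¹ := by
  unfold st bs
  rw [MonoidAlgebra.coeff_single, Finsupp.sum_single_index]
  · simp
  · simp

theorem FLOW_bs_mul {κ : Type} (w w' : FreeGroup κ) : (bs w : GR κ) * bs w' = bs (w * w') := by
  simp

theorem FLOW_bs_one {κ : Type} : (bs (1 : FreeGroup κ) : GR κ) = 1 := rfl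

end FLOW

open FLOW in
theorem t_FLOW (h2 : A_EV1) (h3 : A_EVST) : A_FLOW := by
  intro κ _ D hD K hK hB A _ π t ht
  have hsum : ∀ f : GR κ, Summable fun n => ‖FLOW_a D t π n f‖ := by
    intro f
    induction f using MonoidAlgebra.induction_linear with
    | zero =>
      have : ∀ n, FLOW_a D t π n 0 = 0 := by
        intro n
        unfold FLOW_a
        rw [FLOW_iter_zero, map_zero, smul_zero]
      simp [this, summable_zero]
    | add f g hf hg =>
      refine Summable.of_nonneg_of_le (fun n => norm_nonneg _) (fun n => ?_) (hf.add hg)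
      rw [FLOW_a_add]
      exact norm_add_le _ _
    | single w c =>
      have e : (MonoidAlgebra.single w c : GR κ) = c • bs w := by simp
      have hg : Summable fun n : ℕ => ‖c‖ * (2 ^ w.norm * (|t| * K) ^ n) := by
        refine (Summable.mul_left _ ?_).mul_left _
        exact summable_geometric_of_lt_one (by positivity) ht
      refine Summable.of_nonneg_of_le (fun n => norm_nonneg _) (fun n => ?_) hg
      rw [e, FLOW_a_smul, norm_smul]
      refine mul_le_mul_of_nonneg_left ?_ (norm_nonneg c)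
      unfold FLOW_a
      rw [norm_smul]
      have hf : (0:ℝ) < n.factorial := by exact_mod_cast n.factorial_pos
      have hn : ‖((t : ℂ) ^ n / (n.factorial : ℂ))‖ = |t| ^ n / n.factorial := by
        rw [norm_div, norm_pow, Complex.norm_real, Real.norm_eq_abs, Complex.norm_natCast]
      rw [hn]
      calc |t| ^ n / n.factorial * ‖ev π (D^[n] (bs w))‖
          ≤ |t| ^ n / n.factorial * (n.factorial * K ^ n * 2 ^ w.norm) := by
            refine mul_le_mul_of_nonneg_left ((h2 κ A π _).trans (hB n w)) (by positivity)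
        _ = 2 ^ w.norm * (|t| * K) ^ n := by
            rw [mul_pow]
            field_simp
  have hsum' : ∀ f : GR κ, Summable fun n => FLOW_a D t π n f := fun f => (hsum f).of_norm
  set Φ : GR κ → A := fun f => ∑' n, FLOW_a D t π n f with hΦ
  have hadd : ∀ f g, Φ (f + g) = Φ f + Φ g := by
    intro f g
    simp only [hΦ]
    rw [← (hsum' f).tsum_add (hsum' g)]
    exact tsum_congr fun n => FLOW_a_add D t π n f g
  have hsmul : ∀ (c : ℂ) f, Φ (c • f) = c • Φ f := by
    intro c f
    simp only [hΦ]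
    rw [← (hsum' f).tsum_const_smul c]
    exact tsum_congr fun n => FLOW_a_smul D t π n c f
  have hmul : ∀ f g, Φ (f * g) = Φ f * Φ g := by
    intro f g
    simp only [hΦ]
    rw [tsum_mul_tsum_eq_tsum_sum_antidiagonal_of_summable_norm (hsum f) (hsum g)]
    exact tsum_congr fun n => FLOW_a_mul D t π hD.leib n f g
  have hD1 : D 1 = 0 := by
    have := hD.leib 1 1
    rw [mul_one, mul_one, one_mul] at this
    exact left_eq_add.mp this
  have hone : Φ 1 = 1 := by
    simp only [hΦ]
    rw [tsum_eq_single 0]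
    · unfold FLOW_a
      simp
    · intro n hn
      obtain ⟨m, rfl⟩ := Nat.exists_eq_succ_of_ne_zero hn
      unfold FLOW_a
      rw [Nat.succ_eq_add_one, Function.iterate_succ_apply, hD1, FLOW_iter_zero, map_zero,
        smul_zero]
  have hstar : ∀ f, Φ (st f) = star (Φ f) := by
    intro f
    simp only [hΦ]
    rw [tsum_star]
    exact tsum_congr fun n => FLOW_a_star D t π h3 hD.star n f
  have hu : ∀ w : FreeGroup κ, Φ (bs w) ∈ unitary A := by
    intro w
    rw [Unitary.mem_iff]
    constructor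
    · rw [← hstar, ← hmul, FLOW_st_bs, FLOW_bs_mul, inv_mul_cancel, FLOW_bs_one, hone]
    · rw [← hstar, ← hmul, FLOW_st_bs, FLOW_bs_mul, mul_inv_cancel, FLOW_bs_one, hone]
  let π' : FreeGroup κ →* unitary A :=
    { toFun := fun w => ⟨Φ (bs w), hu w⟩
      map_one' := Subtype.ext hone
      map_mul' := fun w w' => Subtype.ext (by
        show Φ (bs (w * w')) = Φ (bs w) * Φ (bs w')
        rw [← hmul, FLOW_bs_mul]) }
  have hev : ∀ f, ev π' f = Φ f := by
    intro f
    induction f using MonoidAlgebra.induction_linear with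
    | zero =>
      rw [map_zero]
      have := hsmul 0 0
      rw [zero_smul, zero_smul] at this
      exact this.symm
    | add f g hf hg => rw [map_add, hadd, hf, hg]
    | single w c =>
      have e : (MonoidAlgebra.single w c : GR κ) = c • bs w := by simp
      rw [e, map_smul, hsmul]
      congr 1
      unfold ev bs
      rw [MonoidAlgebra.lift_single, one_smul]
      rfl
  refine ⟨π', fun f => ?_⟩
  rw [hev f]
  exact (hsum' f).hasSum

end Pool.Agent.H569G
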