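import Mathlib
import Pool.Agent.H569G.Stubs

/-! Task FOU: `exp (i k(V))` is close to `V` in 2-norm for a suitable trigonometric polynomial `k`. -/

open scoped ComplexOrder ComplexConjugate Topology
open Filter MeasureTheory

namespace Pool.Agent.H569G.FOU

open Pool.Agent.H581R.FF

/-- the circle of length `2π` -/
abbrev TT : Type := AddCircle (2 * Real.pi)

instance fou_fact : Fact (0 < 2 * Real.pi) := ⟨Real.two_pi_pos⟩

/-- the sawtooth function -/
noncomputable def th : TT → ℂ := AddCircle.liftIoc (2 * Real.pi) (-Real.pi) (fun x : ℝ => (x : ℂ))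

theorem th_spec (x : TT) : ∃ t : ℝ, t ∈ Set.Ioc (-Real.pi) (-Real.pi + 2 * Real.pi) ∧ (t : TT) = x ∧
    th x = (t : ℂ) := by
  refine ⟨((AddCircle.equivIoc (2 * Real.pi) (-Real.pi)) x : ℝ),
    ((AddCircle.equivIoc (2 * Real.pi) (-Real.pi)) x).2, ?_, ?_⟩
  · exact (AddCircle.equivIoc (2 * Real.pi) (-Real.pi)).symm_apply_apply x
  · rfl

theorem th_memLp : MemLp th 2 (AddCircle.haarAddCircle (T := 2 * Real.pi)) := by
  have h : MemLp (fun x : ℝ => (x : ℂ)) 2
      (volume.restrict (Set.Ioc (-Real.pi) (-Real.pi + 2 * Real.pi))) := by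
    refine MemLp.of_bound (Complex.continuous_ofReal.aestronglyMeasurable) Real.pi ?_
    refine (ae_restrict_iff' measurableSet_Ioc).2 (Eventually.of_forall fun x hx => ?_)
    rw [Complex.norm_real, Real.norm_eq_abs, abs_le]
    constructor
    · exact hx.1.le
    · have := hx.2; linarith
  exact h.memLp_liftIoc.haarAddCircle

theorem th_conj (x : TT) : conj (th x) = th x := by
  obtain ⟨t, -, -, h⟩ := th_spec x
  rw [h, Complex.conj_ofReal]

theorem c_zero : fourierCoeff th 0 = 0 := by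
  unfold fourierCoeff
  have e : ∀ t : TT, (fourier (-0) t : ℂ) • th t = th t := by
    intro t; rw [neg_zero, fourier_zero, one_smul]
  simp_rw [e]
  rw [AddCircle.integral_haarAddCircle, th, AddCircle.integral_liftIoc_eq_intervalIntegral,
    intervalIntegral.integral_ofReal, integral_id]
  have : ((-Real.pi + 2 * Real.pi) ^ 2 - (-Real.pi) ^ 2) / 2 = 0 := by ring
  rw [this]; simp

theorem c_neg (m : ℤ) : fourierCoeff th (-m) = conj (fourierCoeff th m) := by
  unfold fourierCoeff
  rw [← integral_conj]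
  refine integral_congr_ae (Eventually.of_forall fun t => ?_)
  simp only [smul_eq_mul, map_mul, th_conj]
  rw [neg_neg, fourier_neg, Complex.conj_conj]

theorem sq_int : ∫ t : TT, ‖th t‖ ^ 2 ∂(AddCircle.haarAddCircle (T := 2 * Real.pi)) ≤ 4 := by
  have e : ∀ t : TT, ‖th t‖ ^ 2 =
      AddCircle.liftIoc (2 * Real.pi) (-Real.pi) (fun x : ℝ => x ^ 2) t := by
    intro t
    obtain ⟨s, hs, hst, h⟩ := th_spec t
    rw [h, ← hst, AddCircle.liftIoc_coe_apply hs, Complex.norm_real, Real.norm_eq_abs, sq_abs]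
  simp_rw [e]
  rw [AddCircle.integral_haarAddCircle, AddCircle.integral_liftIoc_eq_intervalIntegral, integral_pow]
  have hp := Real.pi_pos
  have h4 : Real.pi < 3.15 := Real.pi_lt_d2
  rw [smul_eq_mul]
  have : (2 * Real.pi)⁻¹ * (((-Real.pi + 2 * Real.pi) ^ (2 + 1) - (-Real.pi) ^ (2 + 1)) / ((2 : ℕ) + 1))
      = Real.pi ^ 2 / 3 := by
    push_cast
    field_simp
    ring
  rw [this]
  nlinarith

theorem norm_sq_eq {g : Lp ℂ 2 (AddCircle.haarAddCircle (T := 2 * Real.pi))} :
    ∫ t : TT, ‖g t‖ ^ 2 ∂(AddCircle.haarAddCircle (T := 2 * Real.pi)) = ‖g‖ ^ 2 := by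
  have H₃ := congr_arg RCLike.re (@L2.inner_def TT ℂ ℂ _ _ _ _ _ g g)
  rw [← integral_re] at H₃
  · simp only [← norm_sq_eq_re_inner] at H₃
    exact H₃.symm
  · exact L2.integrable_inner g g

/-- the trigonometric polynomial -/
noncomputable def pol (k : ℤ →₀ ℂ) : C(TT, ℂ) := k.sum fun m s => s • fourier m

theorem exists_k (ε : ℝ) (hε : 0 < ε) : ∃ k : ℤ →₀ ℂ, k 0 = 0 ∧ (∀ m, k (-m) = conj (k m)) ∧
    nk k ≤ 2 ∧ ∫ x : TT, ‖pol k x - th x‖ ^ 2 ∂(AddCircle.haarAddCircle (T := 2 * Real.pi)) < ε ^ 2 := by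
  classical
  set f : Lp ℂ 2 (AddCircle.haarAddCircle (T := 2 * Real.pi)) := th_memLp.toLp th with hf
  have hfc : ∀ m, fourierCoeff f m = fourierCoeff th m := by
    intro m
    rw [fourierCoeff_congr_ae th_memLp.coeFn_toLp]
  have hs := hasSum_fourier_series_L2 f
  simp_rw [hfc] at hs
  have h1 := Metric.tendsto_atTop.1 hs ε hε
  obtain ⟨s0, hs0⟩ := h1
  set S : Finset ℤ := s0 ∪ s0.image (fun m => -m) with hS
  have hSsym : ∀ m, m ∈ S → -m ∈ S := by
    intro m hm
    rw [hS, Finset.mem_union, Finset.mem_image] at hm ⊢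
    rcases hm with hm | ⟨a, ha, rfl⟩
    · exact Or.inr ⟨m, hm, rfl⟩
    · rw [neg_neg]; exact Or.inl ha
  have h2 := hs0 S Finset.subset_union_left
  set k : ℤ →₀ ℂ := Finsupp.onFinset S (fun m => if m ∈ S then fourierCoeff th m else 0)
    (fun m hm => by
      by_contra hcon
      exact hm (if_neg hcon)) with hk
  have hkap : ∀ m, k m = if m ∈ S then fourierCoeff th m else 0 := fun m => rfl
  have hsupp : k.support ⊆ S := Finsupp.support_onFinset_subset
  refine ⟨k, ?_, ?_, ?_, ?_⟩
  · rw [hkap, c_zero]; split_ifs <;> rfl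
  · intro m
    rw [hkap, hkap]
    by_cases hm : m ∈ S
    · rw [if_pos (hSsym m hm), if_pos hm, c_neg]
    · have : -m ∉ S := fun h => hm (by have := hSsym _ h; rwa [neg_neg] at this)
      rw [if_neg this, if_neg hm, map_zero]
  · unfold nk
    have h3 : ∑ m ∈ k.support, ‖k m‖ ^ 2 ≤ ∑ m ∈ S, ‖fourierCoeff th m‖ ^ 2 := by
      refine (Finset.sum_le_sum_of_subset_of_nonneg hsupp fun _ _ _ => by positivity).trans ?_
      refine Finset.sum_le_sum fun m hm => ?_
      rw [hkap, if_pos hm]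
    have h4 := hasSum_sq_fourierCoeff f
    simp_rw [hfc] at h4
    have h5 := sum_le_hasSum S (fun m _ => by positivity) h4
    have h6 : ∫ t : TT, ‖f t‖ ^ 2 ∂(AddCircle.haarAddCircle (T := 2 * Real.pi)) =
        ∫ t : TT, ‖th t‖ ^ 2 ∂(AddCircle.haarAddCircle (T := 2 * Real.pi)) := by
      refine integral_congr_ae ?_
      filter_upwards [th_memLp.coeFn_toLp] with x hx
      rw [hf, hx]
    rw [h6] at h5
    have h7 : ∑ m ∈ k.support, ‖k m‖ ^ 2 ≤ 2 ^ 2 := by
      refine h3.trans (h5.trans (sq_int.trans (by norm_num)))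
    calc Real.sqrt (∑ m ∈ k.support, ‖k m‖ ^ 2) ≤ Real.sqrt (2 ^ 2) := Real.sqrt_le_sqrt h7
      _ = 2 := Real.sqrt_sq (by norm_num)
  · have hpol : ContinuousMap.toLp (E := ℂ) 2 (AddCircle.haarAddCircle (T := 2 * Real.pi)) ℂ (pol k) =
        ∑ m ∈ S, fourierCoeff th m • fourierLp 2 m := by
      unfold pol
      rw [Finsupp.sum_of_support_subset k hsupp (fun m s => s • (fourier m : C(TT, ℂ)))
        (fun _ _ => zero_smul _ _), map_sum]
      refine Finset.sum_congr rfl fun m hm => ?_
      rw [map_smul, hkap, if_pos hm]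
    rw [← hpol, dist_eq_norm] at h2
    have h3 : ∫ x : TT, ‖pol k x - th x‖ ^ 2 ∂(AddCircle.haarAddCircle (T := 2 * Real.pi)) =
        ‖ContinuousMap.toLp (E := ℂ) 2 (AddCircle.haarAddCircle (T := 2 * Real.pi)) ℂ (pol k) - f‖ ^ 2 := by
      rw [← norm_sq_eq]
      refine integral_congr_ae ?_
      filter_upwards [Lp.coeFn_sub (ContinuousMap.toLp (E := ℂ) 2
        (AddCircle.haarAddCircle (T := 2 * Real.pi)) ℂ (pol k)) f, th_memLp.coeFn_toLp,
        ContinuousMap.coeFn_toLp (E := ℂ) (p := 2) (𝕜 := ℂ) (AddCircle.haarAddCircle (T := 2 * Real.pi)) (pol k)]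
        with x h1 h2 h3
      rw [h1, Pi.sub_apply, h3, hf, h2]
    rw [h3]
    exact pow_lt_pow_left₀ h2 (norm_nonneg _) two_ne_zero

/-! ### functional calculus -/

theorem map_exp' {B C : Type} [NormedRing B] [NormedAlgebra ℂ B] [CompleteSpace B] [NormedRing C]
    [NormedAlgebra ℂ C] (f : B →ₐ[ℂ] C) (hf : Continuous f) (x : B) :
    f (NormedSpace.exp x) = NormedSpace.exp (f x) :=
  NormedSpace.map_exp_of_mem_ball (𝕂 := ℂ) f hf x
    ((NormedSpace.expSeries_radius_eq_top ℂ B).symm ▸ edist_lt_top _ _)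

section fcalc
variable {A : Type} [CStarAlgebra A] (V : unitary A)

/-- the spectrum is on the circle -/
noncomputable def incl : C(spectrum ℂ (V : A), TT) :=
  (AddCircle.homeomorphCircle'.symm : C(Circle, TT)).comp
    ⟨fun z => ⟨(z : ℂ), Unitary.spectrum_subset_circle V z.2⟩, by
      exact Continuous.subtype_mk continuous_subtype_val _⟩

theorem toCircle_eq (x : TT) : AddCircle.toCircle x = AddCircle.homeomorphCircle' x := by
  induction x using QuotientAddGroup.induction_on with
  | H x =>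
    show AddCircle.toCircle ((x : ℝ) : TT) = AddCircle.homeomorphCircle' ((x : ℝ) : TT)
    rw [AddCircle.toCircle_apply_mk, AddCircle.homeomorphCircle'_apply_mk]
    congr 1
    field_simp

/-- the functional calculus of `V` -/
noncomputable def Phi : C(TT, ℂ) →⋆ₐ[ℂ] A :=
  (cfcHom (R := ℂ) (p := IsStarNormal) (a := (V : A)) inferInstance).comp
    (ContinuousMap.compStarAlgHom' ℂ ℂ (incl V))

theorem Phi_one : Phi V (fourier 1) = (V : A) := by
  unfold Phi
  rw [StarAlgHom.comp_apply]
  have e : (ContinuousMap.compStarAlgHom' ℂ ℂ (incl V)) (fourier 1) =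
      (ContinuousMap.id ℂ).restrict (spectrum ℂ (V : A)) := by
    ext z
    show (fourier 1 (incl V z) : ℂ) = (z : ℂ)
    rw [fourier_one, toCircle_eq]
    show ((AddCircle.homeomorphCircle' (AddCircle.homeomorphCircle'.symm _) : Circle) : ℂ) = _
    rw [Homeomorph.apply_symm_apply]
    rfl
  rw [e]
  exact cfcHom_id _

theorem Phi_fourier (n : ℤ) : Phi V (fourier n) = ((V ^ n : unitary A) : A) := by
  induction n using Int.induction_on with
  | zero =>
    have e : (fourier 0 : C(TT, ℂ)) = 1 := by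
      ext x; rw [fourier_zero]; rfl
    rw [e, map_one, zpow_zero]; rfl
  | succ n ih =>
    have e : (fourier ((n : ℤ) + 1) : C(TT, ℂ)) = fourier (n : ℤ) * fourier 1 := by
      ext x; rw [fourier_add]; rfl
    rw [e, map_mul, ih, Phi_one, zpow_add_one]; rfl
  | pred n ih =>
    have e : (fourier (-(n : ℤ) - 1) : C(TT, ℂ)) = fourier (-(n : ℤ)) * star (fourier 1) := by
      ext x; rw [sub_eq_add_neg, fourier_add, fourier_neg (n := 1)]; rfl
    rw [e, map_mul, ih, map_star, Phi_one, zpow_sub_one]; rfl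

theorem Phi_pol (k : ℤ →₀ ℂ) : Phi V (pol k) = k.sum fun m s => s • ((V ^ m : unitary A) : A) := by
  unfold pol Finsupp.sum
  rw [map_sum]
  refine Finset.sum_congr rfl fun m _ => ?_
  rw [map_smul, Phi_fourier]

theorem Phi_cont : Continuous (Phi V) := by
  unfold Phi
  exact (cfcHom_continuous _).comp (ContinuousMap.continuous_precomp _)

theorem exp_apply (f : C(TT, ℂ)) (x : TT) : (NormedSpace.exp f) x = Complex.exp (f x) := by
  have h := map_exp' (ContinuousMap.evalAlgHom ℂ ℂ x : C(TT, ℂ) →ₐ[ℂ] ℂ)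
    (continuous_eval_const x) f
  rw [Complex.exp_eq_exp_ℂ]
  exact h

end fcalc

/-- the state is integration over the circle -/
theorem phi_Phi (h0 : A_NN) {A : Type} [CStarAlgebra A] (φ : A →ₗ[ℂ] ℂ) (V : unitary A)
    (hφ : TSt φ) (hV : ∀ m : ℤ, m ≠ 0 → φ ((V ^ m : unitary A) : A) = 0) (f : C(TT, ℂ)) :
    φ (Phi V f) = ∫ x, f x ∂(AddCircle.haarAddCircle (T := 2 * Real.pi)) := by
  obtain ⟨-, -, -, -, -, hn, -, -, -, hb, -, -⟩ := h0 A φ hφ
  -- two continuous linear functionals
  set L : C(TT, ℂ) →L[ℂ] ℂ := (LinearMap.mkContinuous φ 1 (fun x => by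
      rw [one_mul]; exact (hb x).trans (hn x))).comp
    ⟨(Phi V : C(TT, ℂ) →ₐ[ℂ] A).toLinearMap, Phi_cont V⟩ with hL
  set I : C(TT, ℂ) →L[ℂ] ℂ := LinearMap.mkContinuous
    { toFun := fun f : C(TT, ℂ) => ∫ x, f x ∂(AddCircle.haarAddCircle (T := 2 * Real.pi))
      map_add' := fun f g => by
        exact integral_add (f.continuous.integrable_of_hasCompactSupport (HasCompactSupport.of_compactSpace _))
          (g.continuous.integrable_of_hasCompactSupport (HasCompactSupport.of_compactSpace _))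
      map_smul' := fun c f => by
        exact integral_const_mul c _ } 1 (fun f => by
      rw [one_mul]
      refine (norm_integral_le_of_norm_le_const (C := ‖f‖) (Eventually.of_forall fun x => f.norm_coe_le_norm x)).trans ?_
      simp) with hI
  have hLI : L = I := by
    refine ContinuousLinearMap.ext_on (s := Set.range (@fourier (2 * Real.pi))) ?_ ?_
    · rw [dense_iff_closure_eq, ← Submodule.topologicalClosure_coe, span_fourier_closure_eq_top]
      rfl
    · rintro _ ⟨n, rfl⟩
      show φ (Phi V (fourier n)) = ∫ x, fourier n x ∂(AddCircle.haarAddCircle (T := 2 * Real.pi))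
      rw [Phi_fourier]
      have h1 : ∫ x, fourier n x ∂(AddCircle.haarAddCircle (T := 2 * Real.pi)) =
          fourierCoeff (T := 2 * Real.pi) (fourier n) 0 := by
        unfold fourierCoeff
        refine integral_congr_ae (Eventually.of_forall fun t => ?_)
        simp
      rw [h1, fourierCoeff_fourier]
      by_cases hn0 : n = 0
      · subst hn0
        rw [Pi.single_eq_same, zpow_zero]
        exact hφ.one
      · rw [hV n hn0, Pi.single_eq_of_ne (Ne.symm hn0)]
  exact congrArg (fun T : C(TT, ℂ) →L[ℂ] ℂ => T f) hLI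

theorem nn_Phi (h0 : A_NN) {A : Type} [CStarAlgebra A] (φ : A →ₗ[ℂ] ℂ) (V : unitary A)
    (hφ : TSt φ) (hV : ∀ m : ℤ, m ≠ 0 → φ ((V ^ m : unitary A) : A) = 0) (f : C(TT, ℂ)) :
    nn φ (Phi V f) = Real.sqrt (∫ x, ‖f x‖ ^ 2 ∂(AddCircle.haarAddCircle (T := 2 * Real.pi))) := by
  unfold nn
  rw [← map_star, ← map_mul, phi_Phi h0 φ V hφ hV]
  congr 1
  have e : ∀ x : TT, (star f * f) x = ((‖f x‖ ^ 2 : ℝ) : ℂ) := by
    intro x
    show conj (f x) * f x = _
    rw [Complex.conj_mul']; push_cast; rfl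
  simp_rw [e]
  rw [integral_complex_ofReal, Complex.ofReal_re]

end Pool.Agent.H569G.FOU

namespace Pool.Agent.H569G

open Pool.Agent.H581R.FF FOU

theorem t_FOU (h0 : A_NN) : A_FOU := by
  intro ε hε
  obtain ⟨k, hk0, hks, hk2, hkint⟩ := exists_k ε hε
  refine ⟨k, hk0, hks, hk2, fun A _ φ V hφ hV => ?_⟩
  have hreal : ∀ x : TT, conj (pol k x) = pol k x := by
    intro x
    have e1 : pol k x = ∑ m ∈ k.support, k m * fourier m x := by
      unfold pol Finsupp.sum
      rw [ContinuousMap.sum_apply]; rfl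
    rw [e1, map_sum]
    refine Finset.sum_bij' (fun m _ => -m) (fun m _ => -m) ?_ ?_ ?_ ?_ ?_
    · intro m hm
      rw [Finsupp.mem_support_iff] at hm ⊢
      rw [hks]; simpa using hm
    · intro m hm
      rw [Finsupp.mem_support_iff] at hm ⊢
      rw [hks]; simpa using hm
    · intro m _; exact neg_neg m
    · intro m _; exact neg_neg m
    · intro m _
      rw [map_mul, hks, fourier_neg]
  have hexp : NormedSpace.exp (Complex.I • k.sum fun m s => s • ((V ^ m : unitary A) : A)) - (V : A)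
      = Phi V (NormedSpace.exp (Complex.I • pol k) - fourier 1) := by
    have e1 := map_exp' (Phi V : C(TT, ℂ) →ₐ[ℂ] A) (Phi_cont V) (Complex.I • pol k)
    have e2 : Phi V (NormedSpace.exp (Complex.I • pol k)) =
        NormedSpace.exp (Phi V (Complex.I • pol k)) := e1
    rw [map_sub, Phi_one, e2, map_smul, Phi_pol]
  rw [hexp, nn_Phi h0 φ V hφ hV]
  have hint : ∫ x : TT, ‖(NormedSpace.exp (Complex.I • pol k) - fourier 1 : C(TT, ℂ)) x‖ ^ 2
      ∂(AddCircle.haarAddCircle (T := 2 * Real.pi)) ≤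
      ∫ x : TT, ‖pol k x - th x‖ ^ 2 ∂(AddCircle.haarAddCircle (T := 2 * Real.pi)) := by
    refine integral_mono_of_nonneg (Eventually.of_forall fun x => by positivity) ?_
      (Eventually.of_forall fun x => ?_)
    · have h1 : MemLp (fun x => pol k x - th x) 2 (AddCircle.haarAddCircle (T := 2 * Real.pi)) := by
        refine MemLp.sub ?_ th_memLp
        exact ((pol k).continuous.memLp_of_hasCompactSupport (HasCompactSupport.of_compactSpace _))
      exact h1.integrable_norm_pow (by norm_num)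
    · obtain ⟨t, -, htx, ht⟩ := th_spec x
      have hr : pol k x = (((pol k x).re : ℝ) : ℂ) := by
        have := Complex.conj_eq_iff_re.1 (hreal x)
        exact this.symm
      have e1 : (NormedSpace.exp (Complex.I • pol k) - fourier 1 : C(TT, ℂ)) x =
          Complex.exp (Complex.I * t) * (Complex.exp (Complex.I * (((pol k x).re - t : ℝ) : ℂ)) - 1) := by
        rw [ContinuousMap.sub_apply, exp_apply, mul_sub, ← Complex.exp_add, mul_one]
        congr 1
        · congr 1
          rw [ContinuousMap.smul_apply, smul_eq_mul, hr]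
          simp only [Complex.ofReal_re]
          push_cast; ring
        · rw [← htx, fourier_coe_apply]
          congr 1
          have : (Real.pi : ℂ) ≠ 0 := by exact_mod_cast Real.pi_ne_zero
          push_cast
          field_simp
      have e2 : ‖(NormedSpace.exp (Complex.I • pol k) - fourier 1 : C(TT, ℂ)) x‖ ≤ ‖pol k x - th x‖ := by
        rw [e1, norm_mul]
        have e3 : ‖Complex.exp (Complex.I * t)‖ = 1 := by
          rw [mul_comm]; exact Complex.norm_exp_ofReal_mul_I t
        rw [e3, one_mul]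
        refine (Real.norm_exp_I_mul_ofReal_sub_one_le).trans (le_of_eq ?_)
        rw [ht, hr, ← Complex.ofReal_sub, Complex.norm_real]
        simp
      exact pow_le_pow_left₀ (norm_nonneg _) e2 2
  calc Real.sqrt (∫ x : TT, ‖(NormedSpace.exp (Complex.I • pol k) - fourier 1 : C(TT, ℂ)) x‖ ^ 2
      ∂(AddCircle.haarAddCircle (T := 2 * Real.pi)))
      ≤ Real.sqrt (∫ x : TT, ‖pol k x - th x‖ ^ 2 ∂(AddCircle.haarAddCircle (T := 2 * Real.pi))) :=
        Real.sqrt_le_sqrt hint
    _ < Real.sqrt (ε ^ 2) := Real.sqrt_lt_sqrt (integral_nonneg fun x => by positivity) hkint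
    _ = ε := Real.sqrt_sq hε.le

end Pool.Agent.H569G
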