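import Mathlib
import Pool.Agent.H569G.Stubs

/-! The flow of a trace preserving derivation preserves the law. -/

namespace Pool.Agent.H569G

open Pool.Agent.H581R.FF
open scoped ComplexConjugate

namespace FSTD

lemma ev_bs {κ A : Type} [CStarAlgebra A] (π : FreeGroup κ →* unitary A) (w : FreeGroup κ) :
    ev π (bs w) = (π w : A) := by
  simp [ev, bs]

/-- the state as a continuous linear map -/
noncomputable def phiL {A : Type} [CStarAlgebra A] (φ : A →ₗ[ℂ] ℂ) (h : ∀ x, ‖φ x‖ ≤ ‖x‖) :
    A →L[ℂ] ℂ :=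
  φ.mkContinuous 1 fun x => by simpa using h x

end FSTD

open FSTD

theorem t_FSTD (h1 : A_NN) (h2 : A_EV2) : A_FSTD := by
  intro κ D hD A _ φ π π' t hφ hF hπ w hw
  have hb : ∀ x, ‖φ x‖ ≤ ‖x‖ := fun x => by
    obtain ⟨_, _, _, _, _, a, _, _, _, b, _⟩ := h1 A φ hφ
    exact (b x).trans (a x)
  have h := hF (bs w)
  rw [ev_bs] at h
  have h3 := h.mapL (phiL φ hb)
  have h4 : HasSum (fun n : ℕ => phiL φ hb (((t : ℂ) ^ n / (n.factorial : ℂ)) • ev π (D^[n] (bs w))))
      0 := by
    convert hasSum_zero with n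
    rw [map_smul]
    have e : phiL φ hb (ev π (D^[n] (bs w))) = φ (ev π (D^[n] (bs w))) := rfl
    rw [e, (h2 κ A φ π hφ hπ _).1]
    cases n with
    | zero =>
      have : (bs w : GR κ).coeff 1 = 0 := by
        simp [bs, hw]
      rw [Function.iterate_zero, id_eq, this, smul_zero]
    | succ n =>
      rw [Function.iterate_succ_apply', hD.tr, smul_zero]
  exact h3.unique h4

end Pool.Agent.H569G
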