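import Mathlib
import Pool.Agent.H569G.Stubs

/-! Basic properties of the 2-seminorm of a tracial state. -/

set_option autoImplicit false

open scoped ComplexOrder ComplexConjugate Topology
open Filter

namespace Pool.Agent.H569G

section NN

variable {A : Type} [CStarAlgebra A] {φ : A →ₗ[ℂ] ℂ}

theorem TSt.conj (h : TSt φ) (x : A) : φ (star x) = conj (φ x) := by
  have h1 := Complex.nonneg_iff.1 (h.nonneg (1 + x))
  have h2 := Complex.nonneg_iff.1 (h.nonneg (1 + Complex.I • x))
  have h3 := Complex.nonneg_iff.1 (h.nonneg x)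
  have e1 : star (1 + x) * (1 + x) = 1 + x + star x + star x * x := by
    rw [star_add, star_one]; noncomm_ring
  have e2 : star (1 + Complex.I • x) * (1 + Complex.I • x)
      = 1 + Complex.I • x - Complex.I • star x + star x * x := by
    rw [star_add, star_one, star_smul, add_mul, mul_add, mul_add, one_mul, one_mul, mul_one,
      smul_mul_smul_comm]
    have : star Complex.I * Complex.I = 1 := by simp
    rw [this, one_smul]
    have : star Complex.I = -Complex.I := by simp
    rw [this, neg_smul]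
    abel
  rw [e1, map_add, map_add, map_add, h.one] at h1
  rw [e2, map_add, map_sub, map_add, h.one, map_smul, map_smul] at h2
  have h4 := h1.2
  have h5 := h2.2
  simp only [Complex.add_im, Complex.one_im, Complex.sub_im, smul_eq_mul, Complex.mul_im,
    Complex.I_re, Complex.I_im, zero_mul, one_mul, zero_add] at h4 h5
  have h6 := h3.2
  refine Complex.ext ?_ ?_
  · rw [Complex.conj_re]; linarith
  · rw [Complex.conj_im]; linarith

/-- inner product core -/
@[instance_reducible]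
noncomputable def TSt.core (h : TSt φ) : PreInnerProductSpace.Core ℂ A where
  inner x y := φ (star x * y)
  conj_inner_symm x y := by
    have : φ (star (star y * x)) = conj (φ (star y * x)) := h.conj _
    rw [star_mul, star_star] at this
    rw [this]
  re_inner_nonneg x := by
    have := (Complex.nonneg_iff.1 (h.nonneg x)).1
    exact this
  add_left x y z := by rw [star_add, add_mul, map_add]
  smul_left x y r := by
    rw [star_smul, smul_mul_assoc, map_smul]
    rfl

theorem TSt.cauchy (h : TSt φ) (x y : A) : ‖φ (star x * y)‖ ≤ nn φ x * nn φ y := by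
  let _ := h.core
  exact InnerProductSpace.Core.norm_inner_le_norm (𝕜 := ℂ) x y

theorem nn_nonneg (φ : A →ₗ[ℂ] ℂ) (x : A) : 0 ≤ nn φ x := Real.sqrt_nonneg _

theorem TSt.re_nonneg (h : TSt φ) (x : A) : 0 ≤ (φ (star x * x)).re :=
  (Complex.nonneg_iff.1 (h.nonneg x)).1

theorem TSt.im_zero (h : TSt φ) (x : A) : (φ (star x * x)).im = 0 :=
  (Complex.nonneg_iff.1 (h.nonneg x)).2.symm

theorem TSt.nn_sq (h : TSt φ) (x : A) : nn φ x ^ 2 = (φ (star x * x)).re :=
  Real.sq_sqrt (h.re_nonneg x)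

theorem TSt.nn_sq' (h : TSt φ) (x : A) : φ (star x * x) = ((nn φ x ^ 2 : ℝ) : ℂ) := by
  rw [h.nn_sq]
  exact Complex.ext rfl (by rw [h.im_zero x]; simp)

theorem TSt.nn_add_le (h : TSt φ) (x y : A) : nn φ (x + y) ≤ nn φ x + nn φ y := by
  have h1 := h.cauchy x y
  have h2 := h.cauchy y x
  have h3 : nn φ (x + y) ^ 2 ≤ (nn φ x + nn φ y) ^ 2 := by
    rw [h.nn_sq]
    have e : star (x + y) * (x + y) = star x * x + star y * y + (star x * y + star y * x) := by
      rw [star_add]; noncomm_ring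
    rw [e, map_add, map_add, map_add, Complex.add_re, Complex.add_re, Complex.add_re,
      ← h.nn_sq, ← h.nn_sq]
    have h4 := Complex.re_le_norm (φ (star x * y))
    have h5 := Complex.re_le_norm (φ (star y * x))
    nlinarith
  exact (pow_le_pow_iff_left₀ (nn_nonneg _ _) (add_nonneg (nn_nonneg _ _) (nn_nonneg _ _))
    two_ne_zero).1 h3

theorem TSt.nn_star (h : TSt φ) (x : A) : nn φ (star x) = nn φ x := by
  unfold nn
  rw [star_star, h.comm]

theorem nn_neg (φ : A →ₗ[ℂ] ℂ) (x : A) : nn φ (-x) = nn φ x := by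
  unfold nn
  rw [star_neg, neg_mul_neg]

theorem TSt.nn_sub_le (h : TSt φ) (x y : A) : nn φ (x - y) ≤ nn φ x + nn φ y := by
  have := h.nn_add_le x (-y)
  rwa [nn_neg, ← sub_eq_add_neg] at this

theorem nn_sub_comm (φ : A →ₗ[ℂ] ℂ) (x y : A) : nn φ (x - y) = nn φ (y - x) := by
  rw [← nn_neg, neg_sub]

theorem TSt.nn_tri (h : TSt φ) (x y z : A) : nn φ (x - z) ≤ nn φ (x - y) + nn φ (y - z) := by
  have := h.nn_add_le (x - y) (y - z)
  rwa [sub_add_sub_cancel] at this

theorem nn_zero (φ : A →ₗ[ℂ] ℂ) : nn φ (0 : A) = 0 := by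
  unfold nn
  simp

theorem nn_smul (φ : A →ₗ[ℂ] ℂ) (c : ℂ) (x : A) : nn φ (c • x) = ‖c‖ * nn φ x := by
  unfold nn
  rw [star_smul, smul_mul_smul_comm, map_smul]
  have : star c * c = ((‖c‖ ^ 2 : ℝ) : ℂ) := by
    rw [Complex.star_def, ← Complex.normSq_eq_conj_mul_self, Complex.normSq_eq_norm_sq]
  rw [this, smul_eq_mul, Complex.re_ofReal_mul, Real.sqrt_mul (by positivity),
    Real.sqrt_sq (norm_nonneg _)]

theorem TSt.nn_mul_left (h : TSt φ) (a b : A) : nn φ (a * b) ≤ ‖a‖ * nn φ b := by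
  letI := CStarAlgebra.spectralOrder A
  letI := CStarAlgebra.spectralOrderedRing A
  have h1 : star a * a ≤ algebraMap ℝ A (‖a‖ ^ 2) := CStarAlgebra.star_mul_le_algebraMap_norm_sq
  have h2 := star_left_conjugate_le_conjugate h1 b
  have h3 : star b * algebraMap ℝ A (‖a‖ ^ 2) * b = ((‖a‖ ^ 2 : ℝ) : ℂ) • (star b * b) := by
    have h4 : algebraMap ℝ A (‖a‖ ^ 2) = algebraMap ℂ A ((‖a‖ ^ 2 : ℝ) : ℂ) :=
      IsScalarTower.algebraMap_apply ℝ ℂ A (‖a‖ ^ 2)
    rw [h4, Algebra.algebraMap_eq_smul_one, mul_smul_comm, smul_mul_assoc, mul_one]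
  have h5 : star b * (star a * a) * b = star (a * b) * (a * b) := by
    rw [star_mul]
    simp only [mul_assoc]
  rw [h3, h5, ← sub_nonneg, CStarAlgebra.nonneg_iff_eq_star_mul_self] at h2
  obtain ⟨y, hy⟩ := h2
  have h6 := h.re_nonneg y
  rw [← hy, map_sub, map_smul, smul_eq_mul, Complex.sub_re, Complex.re_ofReal_mul, ← h.nn_sq,
    ← h.nn_sq] at h6
  refine abs_le_of_sq_le_sq' ?_ (mul_nonneg (norm_nonneg _) (nn_nonneg _ _)) |>.2
  rw [mul_pow]
  linarith

theorem TSt.nn_mul_right (h : TSt φ) (b a : A) : nn φ (b * a) ≤ nn φ b * ‖a‖ := by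
  have h1 := h.nn_mul_left (star a) (star b)
  rw [← star_mul, h.nn_star, h.nn_star, norm_star] at h1
  rw [mul_comm (nn φ b)]
  exact h1

theorem TSt.nn_one (h : TSt φ) : nn φ 1 = 1 := by
  unfold nn
  rw [star_one, one_mul, h.one, Complex.one_re, Real.sqrt_one]

theorem TSt.nn_le (h : TSt φ) (x : A) : nn φ x ≤ ‖x‖ := by
  have h1 := h.nn_mul_left x 1
  rwa [mul_one, h.nn_one, mul_one] at h1

theorem TSt.nn_unitary_mul (_h : TSt φ) (u : unitary A) (x : A) : nn φ ((u : A) * x) = nn φ x := by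
  unfold nn
  rw [star_mul, mul_assoc, ← mul_assoc (star (u : A)), Unitary.coe_star_mul_self, one_mul]

theorem TSt.nn_mul_unitary (h : TSt φ) (u : unitary A) (x : A) : nn φ (x * (u : A)) = nn φ x := by
  rw [← h.nn_star, star_mul]
  have := h.nn_unitary_mul (star u) (star x)
  rw [Unitary.coe_star] at this
  rw [this, h.nn_star]

theorem TSt.norm_le (h : TSt φ) (x : A) : ‖φ x‖ ≤ nn φ x := by
  have h1 := h.cauchy 1 x
  rwa [star_one, one_mul, h.nn_one, one_mul] at h1

end NN

theorem t_NN : A_NN := by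
  intro A _ φ h
  exact ⟨h.nn_add_le, h.nn_sub_le, nn_smul φ, h.nn_mul_left, h.nn_mul_right, h.nn_le, h.nn_star,
    nn_nonneg φ, fun u x => ⟨h.nn_unitary_mul u x, h.nn_mul_unitary u x⟩, h.norm_le, h.conj,
    h.nn_sq'⟩

end Pool.Agent.H569G
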