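import Mathlib
import Pool.Agent.H569G.Stubs

/-! NSTEP: flow for time one in `N` steps, abstract C*-algebra version. -/

open scoped ComplexOrder ComplexConjugate Topology
open Filter

namespace Pool.Agent.H569G

open Pool.Agent.H581R.FF

namespace NSTEP

variable {A : Type} [CStarAlgebra A]

theorem exp_bound (y : A) :
    ‖NormedSpace.exp y - 1 - y‖ ≤ ‖y‖ ^ 2 * Real.exp ‖y‖ := by
  have hs : HasSum (fun n : ℕ => ((n.factorial : ℂ)⁻¹) • y ^ n) (NormedSpace.exp y) :=
    NormedSpace.exp_series_hasSum_exp' y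
  have h2 := (hasSum_nat_add_iff' 2).2 hs
  have e1 : NormedSpace.exp y - ∑ i ∈ Finset.range 2, ((i.factorial : ℂ)⁻¹) • y ^ i =
      NormedSpace.exp y - 1 - y := by
    simp [Finset.sum_range_succ, sub_sub]
  rw [e1] at h2
  have h3 : HasSum (fun n : ℕ => ‖y‖ ^ 2 * (‖y‖ ^ n / n.factorial)) (‖y‖ ^ 2 * Real.exp ‖y‖) := by
    apply HasSum.mul_left
    rw [Real.exp_eq_exp_ℝ]
    exact NormedSpace.expSeries_div_hasSum_exp ‖y‖
  refine h2.norm_le_of_bounded h3 fun n => ?_
  rw [norm_smul, norm_inv, Complex.norm_natCast]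
  have h4 : ‖y ^ (n + 2)‖ ≤ ‖y‖ ^ (n + 2) := norm_pow_le' y (by omega)
  have h5 : ((n + 2).factorial : ℝ)⁻¹ ≤ (n.factorial : ℝ)⁻¹ := by
    apply inv_anti₀ (by exact_mod_cast n.factorial_pos)
    exact_mod_cast Nat.factorial_le (by omega)
  calc ((n + 2).factorial : ℝ)⁻¹ * ‖y ^ (n + 2)‖ ≤ (n.factorial : ℝ)⁻¹ * ‖y‖ ^ (n + 2) := by
        apply mul_le_mul h5 h4 (norm_nonneg _) (by positivity)
    _ = ‖y‖ ^ 2 * (‖y‖ ^ n / n.factorial) := by rw [pow_add]; field_simp

/-- the one-parameter group -/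
noncomputable def U (X : selfAdjoint A) (s : ℝ) : unitary A := selfAdjoint.expUnitary (s • X)

theorem U_add (X : selfAdjoint A) (s t : ℝ) : U X (s + t) = U X s * U X t := by
  unfold U
  rw [add_smul]
  apply Commute.expUnitary_add
  show Commute ((s • X : selfAdjoint A) : A) ((t • X : selfAdjoint A) : A)
  simp only [selfAdjoint.val_smul]
  exact ((Commute.refl (X : A)).smul_left s).smul_right t

theorem U_zero (X : selfAdjoint A) : U X 0 = 1 := by
  unfold U; rw [zero_smul, selfAdjoint.expUnitary_zero]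

theorem U_one (X : selfAdjoint A) : (U X 1 : A) = NormedSpace.exp (Complex.I • (X : A)) := by
  unfold U; rw [one_smul, selfAdjoint.expUnitary_coe]

theorem U_bound (X : selfAdjoint A) {t : ℝ} (ht : 0 ≤ t) (ht1 : t ≤ 1) :
    ‖(U X t : A) - 1 - (t : ℂ) • (Complex.I • (X : A))‖ ≤
      ‖(X : A)‖ ^ 2 * Real.exp ‖(X : A)‖ * t ^ 2 := by
  have e : (U X t : A) = NormedSpace.exp ((t : ℂ) • (Complex.I • (X : A))) := by
    unfold U
    rw [selfAdjoint.expUnitary_coe, selfAdjoint.val_smul, smul_comm (t : ℂ) Complex.I]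
    congr 2
  rw [e]
  refine (exp_bound _).trans ?_
  have hn : ‖(t : ℂ) • (Complex.I • (X : A))‖ = t * ‖(X : A)‖ := by
    rw [norm_smul, norm_smul, Complex.norm_I, one_mul, Complex.norm_real, Real.norm_eq_abs,
      abs_of_nonneg ht]
  rw [hn]
  have h1 : Real.exp (t * ‖(X : A)‖) ≤ Real.exp ‖(X : A)‖ := by
    apply Real.exp_le_exp.2
    nlinarith [norm_nonneg (X : A)]
  calc (t * ‖(X : A)‖) ^ 2 * Real.exp (t * ‖(X : A)‖)
      ≤ (t * ‖(X : A)‖) ^ 2 * Real.exp ‖(X : A)‖ := by gcongr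
    _ = ‖(X : A)‖ ^ 2 * Real.exp ‖(X : A)‖ * t ^ 2 := by ring

theorem ev_bs {κ : Type} (π : FreeGroup κ →* unitary A) (w : FreeGroup κ) :
    ev π (bs w) = (π w : A) := by
  simp [ev, bs]

end NSTEP

open NSTEP in
theorem t_NSTEP (h0 : A_NN) (h3 : A_EV2) (h4 : A_EVST) (h5 : A_FLOW) (h6 : A_TAY) (h8 : A_FSTD)
    (h10 : A_FFIX) : A_NSTEP := by
  intro κ _ D hD K hK hB k0 E g u hg hk hs η hη A _ φ π hφ hπ
  obtain ⟨C1, hC1, hT1⟩ := h6 κ D hD K hK hB (bs u)
  obtain ⟨C2, hC2, hT2⟩ := h6 κ D hD K hK hB (bs g)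
  obtain ⟨nadd, -, nsmul, -, -, nle, -, -, nun, -, -, -⟩ := h0 A φ hφ
  have hXs : star (ev π k0) = ev π k0 := by rw [← h4, hs]
  set X : selfAdjoint A := ⟨ev π k0, hXs⟩ with hX
  have hXc : (X : A) = ev π k0 := rfl
  set C3 : ℝ := ‖(X : A)‖ ^ 2 * Real.exp ‖(X : A)‖ with hC3
  have hC30 : 0 ≤ C3 := by positivity
  obtain ⟨N, hN⟩ := exists_nat_gt (max (max (2 * K) 1) (max (C1 / η) ((C2 + C3) / η)))
  have hN1 : (2 * K : ℝ) < N := lt_of_le_of_lt ((le_max_left _ _).trans (le_max_left _ _)) hN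
  have hN2 : (1 : ℝ) < N := lt_of_le_of_lt ((le_max_right _ _).trans (le_max_left _ _)) hN
  have hN3 : C1 / η < N := lt_of_le_of_lt ((le_max_left _ _).trans (le_max_right _ _)) hN
  have hN4 : (C2 + C3) / η < N := lt_of_le_of_lt ((le_max_right _ _).trans (le_max_right _ _)) hN
  have hNpos : (0 : ℝ) < N := by linarith
  set t : ℝ := 1 / N with ht
  have ht0 : 0 < t := by positivity
  have ht1 : t ≤ 1 := by rw [ht, div_le_one hNpos]; exact hN2.le
  have htK : |t| * K ≤ 1 / 2 := by
    rw [abs_of_pos ht0, ht, one_div, inv_mul_le_iff₀ hNpos]; linarith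
  have key : ∀ j : ℕ, ∃ π' : FreeGroup κ →* unitary A, StdA φ π' ∧
      (∀ w, D (bs w) = 0 → π' w = π w) ∧ ev π' k0 = ev π k0 ∧
      nn φ ((π' u : A) - (π u : A)) ≤ j * (t * l2 (D (bs u)) + C1 * t ^ 2) ∧
      nn φ ((U X (1 - j * t) : A) * (π' g : A) - (U X 1 : A) * (π g : A)) ≤
        j * (t * l2 E + (C2 + C3) * t ^ 2) := by
    intro j
    induction j with
    | zero =>
      refine ⟨π, hπ, fun _ _ => rfl, rfl, ?_, ?_⟩
      · have := nle (0 : A)
        simpa using this
      · have := nle (0 : A)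
        simpa using this
    | succ j ih =>
      obtain ⟨π', hstd, hfix, hev, hu, hgg⟩ := ih
      obtain ⟨π'', hflow⟩ := h5 κ D hD K hK hB A π' t (by linarith)
      have hstd' := h8 κ D hD A φ π' π'' t hφ hflow hstd
      have hfix' : ∀ w, D (bs w) = 0 → π'' w = π w := fun w hw =>
        (h10 κ D A π' π'' t hflow w hw).trans (hfix w hw)
      have hev' : ev π'' k0 = ev π k0 := by
        rw [← hev]
        have q1 := hflow k0
        have q2 : HasSum (fun n : ℕ => ((t : ℂ) ^ n / (n.factorial : ℂ)) • ev π' (D^[n] k0))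
            (((t : ℂ) ^ 0 / ((0 : ℕ).factorial : ℂ)) • ev π' (D^[0] k0)) := by
          apply hasSum_single 0
          intro n hn
          obtain ⟨m, rfl⟩ := Nat.exists_eq_succ_of_ne_zero hn
          rw [Function.iterate_succ_apply, hk, Function.iterate_fixed (map_zero D) m, map_zero,
            smul_zero]
        have q3 := q1.unique q2
        simpa using q3
      refine ⟨π'', hstd', hfix', hev', ?_, ?_⟩
      · -- the letter `u`
        have q := hT1 A π' π'' t htK hflow
        rw [ev_bs, ev_bs] at q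
        set R := (π'' u : A) - (π' u : A) - (t : ℂ) • ev π' (D (bs u)) with hR
        have e1 : (π'' u : A) - (π u : A) =
            (R + (t : ℂ) • ev π' (D (bs u))) + ((π' u : A) - (π u : A)) := by
          rw [hR]; abel
        have e2 : nn φ ((t : ℂ) • ev π' (D (bs u))) = t * l2 (D (bs u)) := by
          rw [nsmul, (h3 κ A φ π' hφ hstd _).2, Complex.norm_real, Real.norm_eq_abs,
            abs_of_pos ht0]
        rw [e1]
        refine (nadd _ _).trans ?_
        have q2 := nadd R ((t : ℂ) • ev π' (D (bs u)))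
        have q3 := nle R
        push_cast
        linarith
      · -- the word `g`
        have q := hT2 A π' π'' t htK hflow
        rw [ev_bs, ev_bs] at q
        set R2 := (π'' g : A) - (π' g : A) - (t : ℂ) • ev π' (D (bs g)) with hR2
        have hdg : ev π' (D (bs g)) =
            Complex.I • (((X : A) + ev π' E) * (π' g : A)) := by
          rw [hg, map_smul, map_mul, map_add, ev_bs, hev, hXc]
        have q3 := U_bound X ht0.le ht1
        rw [← hC3] at q3
        set R3 := (U X t : A) - 1 - (t : ℂ) • (Complex.I • (X : A)) with hR3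
        have e1 : (U X (1 - (j + 1 : ℕ) * t) : A) * (U X t : A) = (U X (1 - j * t) : A) := by
          have := U_add X (1 - (j + 1 : ℕ) * t) t
          rw [show 1 - ((j + 1 : ℕ) : ℝ) * t + t = 1 - j * t by push_cast; ring] at this
          rw [this]; rfl
        have e2 : (π'' g : A) - (U X t : A) * (π' g : A) =
            R2 - R3 * (π' g : A) + ((t : ℂ) * Complex.I) • (ev π' E * (π' g : A)) := by
          rw [hR2, hR3, hdg]
          simp only [sub_mul, one_mul, add_mul, smul_add, smul_mul_assoc, smul_smul]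
          abel
        have e3 : (U X (1 - (j + 1 : ℕ) * t) : A) * (π'' g : A) - (U X 1 : A) * (π g : A) =
            (U X (1 - (j + 1 : ℕ) * t) : A) * ((π'' g : A) - (U X t : A) * (π' g : A)) +
            ((U X (1 - j * t) : A) * (π' g : A) - (U X 1 : A) * (π g : A)) := by
          rw [← e1]; noncomm_ring
        rw [e3]
        refine (nadd _ _).trans ?_
        rw [(nun _ _).1, e2]
        have n1 : nn φ (((t : ℂ) * Complex.I) • (ev π' E * (π' g : A))) = t * l2 E := by
          rw [nsmul, (nun (π' g) _).2, (h3 κ A φ π' hφ hstd _).2, norm_mul, Complex.norm_real,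
            Complex.norm_I, Real.norm_eq_abs, abs_of_pos ht0, mul_one]
        have n2 : nn φ (R2 - R3 * (π' g : A)) ≤ (C2 + C3) * t ^ 2 := by
          refine (nle _).trans ((norm_sub_le _ _).trans ?_)
          have : ‖R3 * (π' g : A)‖ ≤ ‖R3‖ := by
            rw [CStarRing.norm_mul_coe_unitary]
          linarith
        have n3 := nadd (R2 - R3 * (π' g : A)) (((t : ℂ) * Complex.I) • (ev π' E * (π' g : A)))
        push_cast
        linarith
  obtain ⟨π', hstd, hfix, -, hu, hgg⟩ := key N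
  have hNt : (N : ℝ) * t = 1 := by rw [ht]; field_simp
  refine ⟨π', hstd, hfix, ?_, ?_⟩
  · have e : (N : ℝ) * (t * l2 (D (bs u)) + C1 * t ^ 2) = l2 (D (bs u)) + C1 * t := by
      calc (N : ℝ) * (t * l2 (D (bs u)) + C1 * t ^ 2)
          = (N * t) * l2 (D (bs u)) + C1 * (N * t) * t := by ring
        _ = _ := by rw [hNt]; ring
    rw [e] at hu
    have : C1 * t ≤ η := by
      rw [div_lt_iff₀ hη] at hN3
      rw [ht, mul_one_div, div_le_iff₀ hNpos]; linarith
    linarith
  · rw [hNt, sub_self, U_zero, U_one] at hgg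
    have e : (N : ℝ) * (t * l2 E + (C2 + C3) * t ^ 2) = l2 E + (C2 + C3) * t := by
      calc (N : ℝ) * (t * l2 E + (C2 + C3) * t ^ 2)
          = (N * t) * l2 E + (C2 + C3) * (N * t) * t := by ring
        _ = _ := by rw [hNt]; ring
    rw [e] at hgg
    have : (C2 + C3) * t ≤ η := by
      rw [div_lt_iff₀ hη] at hN4
      rw [ht, mul_one_div, div_le_iff₀ hNpos]; linarith
    have e2 : ((1 : unitary A) : A) * (π' g : A) = (π' g : A) := by simp
    rw [e2, hXc] at hgg
    linarith

end Pool.Agent.H569G
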