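import Mathlib
import Pool.Agent.H569G.Stubs

/-! Task STAGE: the flow theorem for an abstract C*-algebra with tracial state (assembly). -/

open scoped ComplexOrder ComplexConjugate Topology
open Filter

namespace Pool.Agent.H569G.STAGE

open Pool.Agent.H581R.FF
open Pool.Agent.H569G

section
variable {κ A : Type} [CStarAlgebra A]

theorem ev_single (π : FreeGroup κ →* unitary A) (w : FreeGroup κ) (s : ℂ) :
    ev π (MonoidAlgebra.single w s) = s • (π w : A) := by
  unfold ev
  rw [MonoidAlgebra.lift_single]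
  rfl

end

section
variable {ι : Type}

/-- the substitution `v ↦ v x`, the other generators fixed, where `x` is a word in the others -/
noncomputable def al (x : FreeGroup ι) : FreeGroup (Option ι) →* FreeGroup (Option ι) :=
  FreeGroup.lift fun z => match z with
    | none => FreeGroup.of none * jj x
    | some i => FreeGroup.of (some i)

theorem al_jj (x w : FreeGroup ι) : al x (jj w) = jj w := by
  have : (al x).comp jj = (jj : FreeGroup ι →* FreeGroup (Option ι)) := by
    refine FreeGroup.ext_hom _ _ fun i => ?_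
    show al x (jj (FreeGroup.of i)) = jj (FreeGroup.of i)
    rw [FreeGroup.map.of]
    exact FreeGroup.lift_apply_of
  exact DFunLike.congr_fun this w

theorem al_vv (x : FreeGroup ι) : al x vv = vv * jj x := FreeGroup.lift_apply_of

theorem al_some (x : FreeGroup ι) (i : ι) : al x (FreeGroup.of (some i)) = FreeGroup.of (some i) :=
  FreeGroup.lift_apply_of

theorem al_inv (x : FreeGroup ι) (w : FreeGroup (Option ι)) : al x⁻¹ (al x w) = w := by
  have : (al x⁻¹).comp (al x) = MonoidHom.id _ := by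
    refine FreeGroup.ext_hom _ _ fun z => ?_
    rcases z with _ | i
    · show al x⁻¹ (al x vv) = vv
      rw [al_vv, map_mul, al_vv, al_jj, map_inv, inv_mul_cancel_right]
    · show al x⁻¹ (al x (FreeGroup.of (some i))) = _
      rw [al_some, al_some]
      rfl
  exact DFunLike.congr_fun this w

theorem vv_pow_ne (m : ℤ) (hm : m ≠ 0) : ((vv : FreeGroup (Option ι)) ^ m) ≠ 1 := by
  intro h
  have h1 := congrArg (FreeGroup.lift fun _ : Option ι => Multiplicative.ofAdd (1 : ℤ)) h
  rw [MonoidHom.map_zpow, FreeGroup.lift_apply_of, MonoidHom.map_one, ← ofAdd_zsmul, smul_eq_mul,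
    mul_one] at h1
  exact hm h1

theorem wrd_mem (a b u : ι) (ys : List (FreeGroup ι))
    (h : ∀ y ∈ ys, y ∈ Subgroup.closure {FreeGroup.of a, FreeGroup.of b}) :
    wrd (FreeGroup.of u) ys ∈ Subgroup.closure {FreeGroup.of a, FreeGroup.of b, FreeGroup.of u} := by
  induction ys with
  | nil => exact Subgroup.one_mem _
  | cons y ys ih =>
    show y * FreeGroup.of u * wrd (FreeGroup.of u) ys ∈ _
    refine Subgroup.mul_mem _ (Subgroup.mul_mem _ ?_ ?_) (ih fun z hz => h z (List.mem_cons_of_mem _ hz))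
    · refine Subgroup.closure_mono ?_ (h y List.mem_cons_self)
      intro z hz
      rcases hz with hz | hz
      · left; exact hz
      · right; left; exact hz
    · refine Subgroup.subset_closure ?_
      right; right
      rfl

end

end Pool.Agent.H569G.STAGE

namespace Pool.Agent.H569G

open Pool.Agent.H581R.FF
open Pool.Agent.H569G.STAGE

theorem t_STAGE (hNN : A_NN) (hNSTEP : A_NSTEP) (hFOU : A_FOU) (hDER : S_DER) (hBND : S_BND)
    (hTR : S_TR) (hSTAR : S_STAR) (hFORM : S_FORM) (hFIX0 : S_FIX0) (hAD : S_AD) (hL2 : S_L2)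
    (hCORE : S_CORE) (hWORD : S_WORD) : A_STAGE := by
  classical
  intro ι A _ φ a b u hab hau hbu π hφ hStd ε hε
  obtain ⟨hadd, -, -, -, -, -, -, -, hun, -, -, -⟩ := hNN A φ hφ
  obtain ⟨k, k0, ks, hnk, hV⟩ := hFOU (ε / 4) (by positivity)
  choose ysL xL hysL hprefL hinjL using hWORD ι a b u hab hau hbu
  obtain ⟨L, c, hc1, hc2⟩ := hCORE (FreeGroup ι) xL hinjL (ε / 16) (by positivity)
  obtain ⟨ys, hysdef⟩ : ∃ ys, ys = ysL L := ⟨_, rfl⟩
  have hys : ∀ y ∈ ys, y ∈ Subgroup.closure {FreeGroup.of a, FreeGroup.of b} := by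
    rw [hysdef]; exact hysL L
  rw [← hprefL L, ← hysdef] at hc2
  -- derivations
  have hex : ∀ c : FreeGroup ι →₀ ℝ, ∃ D : GR (Option ι) →ₗ[ℂ] GR (Option ι), DU u c k D := by
    intro c
    obtain ⟨D, hD1, hD2⟩ := hDER (Option ι) (fun z =>
      if z = some u then Complex.I • (bs (FreeGroup.of (some u)) * Ad c k) else 0)
    refine ⟨D, ⟨k0, ks, hD1, ?_, ?_⟩⟩
    · rw [hD2, if_pos rfl]
    · intro z hz
      rw [hD2, if_neg hz]
  obtain ⟨D, hD⟩ := hex c
  obtain ⟨D1, hD1⟩ := hex (Finsupp.single 1 1)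
  have hder : IsDer D := ⟨hD.leib, (hSTAR ι u c k D hD).2, hTR ι u c k D hD⟩
  obtain ⟨K, hK, hBdd⟩ := hBND (Option ι) (some u) D hD.leib hD.dz
  set g0 : FreeGroup ι := wrd (FreeGroup.of u) ys with hg0
  set Z : FreeGroup ι →₀ ℝ := ZZ (pref (FreeGroup.of u) ys) c with hZ
  have hfix := hFIX0 ι u c k D hD
  have hysD : ∀ y ∈ ys, D (bs (jj y)) = 0 := by
    intro y hy
    refine hfix.1 _ ?_
    have h1 : Subgroup.closure {(FreeGroup.of a : FreeGroup ι), FreeGroup.of b} ≤ (Subgroup.closure
        (Set.range (FreeGroup.of : Option ι → _) \ {FreeGroup.of (some u)})).comap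
          (jj : FreeGroup ι →* FreeGroup (Option ι)) := by
      rw [Subgroup.closure_le]
      have key : ∀ i : ι, i ≠ u → jj (FreeGroup.of i) ∈ Subgroup.closure
          (Set.range (FreeGroup.of : Option ι → _) \ {FreeGroup.of (some u)}) := by
        intro i hi
        rw [FreeGroup.map.of]
        refine Subgroup.subset_closure ⟨⟨some i, rfl⟩, ?_⟩
        intro h
        rw [Set.mem_singleton_iff] at h
        exact hi (Option.some_injective _ (FreeGroup.of_injective h))
      intro z hz
      rcases hz with hz | hz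
      · rw [hz]; exact key a hau
      · rw [Set.mem_singleton_iff] at hz
        rw [hz]; exact key b hbu
    exact h1 (hys y hy)
  have hform := hFORM ι u c k D hD ys hysD
  rw [← hg0, ← hZ] at hform
  have hAd1 : Ad (Finsupp.single (1 : FreeGroup ι) 1) k = kk k :=
    (hAD ι 0 0 k k0).2.2.2
  have hAdZ : Ad Z k = kk k + Ad (Z - Finsupp.single 1 1) k := by
    have h1 := (hAD ι Z (Finsupp.single 1 1) k k0).2.2.1
    rw [h1, hAd1]
    abel
  rw [hAdZ] at hform
  have hst : st (kk k : GR (Option ι)) = kk k := by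
    have h1 := (hSTAR ι u (Finsupp.single 1 1) k D1 hD1).1
    rwa [hAd1] at h1
  have hnk0 : 0 ≤ nk k := Real.sqrt_nonneg _
  have hE : l2 (Ad (Z - Finsupp.single 1 1) k) ≤ ε / 8 := by
    rw [(hAD ι (Z - Finsupp.single 1 1) 0 k k0).1]
    have h1 : 0 ≤ n2 (Z - Finsupp.single 1 1) := Real.sqrt_nonneg _
    nlinarith
  have hDu : l2 (D (bs (FreeGroup.of (some u)))) ≤ ε / 8 := by
    rw [hD.du, (hL2 (Option ι) _ 1 Complex.I).2.2, (hL2 (Option ι) _ _ 1).2.1, Complex.norm_I,
      one_mul, (hAD ι c 0 k k0).1]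
    have h1 : 0 ≤ n2 c := Real.sqrt_nonneg _
    nlinarith
  -- the new system
  let π0 : FreeGroup (Option ι) →* unitary A := π.comp (al g0⁻¹)
  have hπ0 : ∀ w, π0 w = π (al g0⁻¹ w) := fun w => rfl
  have hal' : ∀ w : FreeGroup (Option ι), al g0 (al g0⁻¹ w) = w := by
    intro w
    have h := al_inv g0⁻¹ w
    rwa [inv_inv] at h
  have hStd0 : StdA φ π0 := by
    intro w hw
    refine hStd _ ?_
    intro h
    apply hw
    rw [← hal' w, h, map_one]
  obtain ⟨π', hStd', hfix', hu', hg'⟩ := hNSTEP (Option ι) D hder K hK hBdd (kk k)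
    (Ad (Z - Finsupp.single 1 1) k) (jj g0) (FreeGroup.of (some u)) hform hfix.2 hst (ε / 8)
    (by positivity) A φ π0 hφ hStd0
  have hsome : ∀ i : ι, π0 (FreeGroup.of (some i)) = π (FreeGroup.of (some i)) := by
    intro i
    rw [hπ0, al_some]
  refine ⟨π', g0, hStd', wrd_mem a b u ys hys, ?_, ?_, ?_⟩
  · intro i hi
    rw [hfix' _ (hD.dz (some i) (fun h => hi (Option.some_injective _ h))), hsome]
  · rw [← hsome]
    refine hu'.trans_lt ?_
    linarith
  · -- the main estimate
    set V : unitary A := π0 vv with hVdef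
    have hVm : ∀ m : ℤ, ((V ^ m : unitary A) : A) = (π0 (vv ^ m) : A) := by
      intro m
      rw [map_zpow]
    have hVt := hV A φ V hφ (fun m hm => by
      rw [hVm]
      exact hStd0 _ (vv_pow_ne m hm))
    have hX : ev π0 (kk k) = k.sum fun m s => s • ((V ^ m : unitary A) : A) := by
      unfold kk
      rw [map_finsuppSum]
      refine Finsupp.sum_congr fun m _ => ?_
      rw [ev_single, hVm]
    rw [← hX] at hVt
    have hg0c : (V : A) * (π0 (jj g0) : A) = (π vv : A) := by
      have h1 : V * π0 (jj g0) = π vv := by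
        rw [hVdef, ← map_mul, hπ0, map_mul, al_vv, al_jj, map_inv, inv_mul_cancel_right]
      rw [← h1]
      rfl
    have h2 := (hun (π0 (jj g0)) (NormedSpace.exp (Complex.I • ev π0 (kk k)) - (V : A))).2
    have e : (π' (jj g0) : A) - (π vv : A)
        = ((π' (jj g0) : A) - NormedSpace.exp (Complex.I • ev π0 (kk k)) * (π0 (jj g0) : A))
          + (NormedSpace.exp (Complex.I • ev π0 (kk k)) - (V : A)) * (π0 (jj g0) : A) := by
      rw [sub_mul, hg0c]
      abel
    rw [e]
    refine (hadd _ _).trans_lt ?_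
    rw [h2]
    linarith

end Pool.Agent.H569G
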