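import Mathlib
import Pool.Agent.H569G.Stubs
import Pool.Agent.H581R.FF.TTAY

/-! Second order Taylor bound for the flow, abstract C*-algebra. -/

namespace Pool.Agent.H569G

open Pool.Agent.H581R.FF
open scoped ComplexConjugate

theorem t_TAY (h1 : S_L1) (h2 : A_EV1) : A_TAY := by
  intro κ _ D _ K hK hB f
  obtain ⟨S, hS, hb⟩ := Pool.Agent.H581R.FF.TTAY.bound h1 D K hK hB f
  refine ⟨2 * K ^ 2 * S, by positivity, fun A _ π π' t ht hfl => ?_⟩
  have hs := hfl f
  set a : ℕ → A := fun n => ((t : ℂ) ^ n / (n.factorial : ℂ)) • ev π (D^[n] f) with ha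
  have hs' : HasSum a (ev π' f) := hs
  -- remove the first two terms
  have htail : HasSum (fun n => a (n + 2)) (ev π' f - ∑ i ∈ Finset.range 2, a i) :=
    (hasSum_nat_add_iff' 2).2 hs'
  have e2 : ev π' f - ∑ i ∈ Finset.range 2, a i = ev π' f - ev π f - (t : ℂ) • ev π (D f) := by
    rw [Finset.sum_range_succ, Finset.sum_range_one, ha]
    simp only [pow_zero, Nat.factorial_zero, Nat.cast_one, div_one, one_smul,
      Function.iterate_zero, id_eq, pow_one, Nat.factorial_one, Function.iterate_one]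
    abel
  rw [e2] at htail
  have hr0 : 0 ≤ |t| * K := by positivity
  have hterm : ∀ n, ‖a n‖ ≤ (|t| * K) ^ n * S := by
    intro n
    have hfac : (0 : ℝ) < (n.factorial : ℝ) := by exact_mod_cast n.factorial_pos
    rw [ha]
    simp only
    rw [norm_smul, norm_div, norm_pow, Complex.norm_real, Complex.norm_natCast, Real.norm_eq_abs]
    have h3 := (h2 κ A π (D^[n] f)).trans (hb n)
    calc |t| ^ n / (n.factorial : ℝ) * ‖ev π (D^[n] f)‖
        ≤ |t| ^ n / (n.factorial : ℝ) * (n.factorial * K ^ n * S) :=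
          mul_le_mul_of_nonneg_left h3 (by positivity)
      _ = (|t| * K) ^ n * S := by
          rw [mul_pow]; field_simp
  have hgeo : HasSum (fun n : ℕ => (|t| * K) ^ 2 * S * (|t| * K) ^ n)
      ((|t| * K) ^ 2 * S * (1 - |t| * K)⁻¹) :=
    (hasSum_geometric_of_lt_one hr0 (by linarith)).mul_left _
  have hle := tsum_of_norm_bounded hgeo (f := fun n => a (n + 2)) (fun n => by
    refine (hterm (n + 2)).trans (le_of_eq ?_)
    rw [pow_add]; ring)
  rw [htail.tsum_eq] at hle
  refine hle.trans ?_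
  have hinv : (1 - |t| * K)⁻¹ ≤ 2 := by
    rw [inv_le_comm₀ (by linarith) (by norm_num)]
    linarith
  have h4 : 0 ≤ (|t| * K) ^ 2 * S := by positivity
  calc (|t| * K) ^ 2 * S * (1 - |t| * K)⁻¹ ≤ (|t| * K) ^ 2 * S * 2 :=
        mul_le_mul_of_nonneg_left hinv h4
    _ = 2 * K ^ 2 * S * t ^ 2 := by rw [mul_pow, sq_abs]; ring

end Pool.Agent.H569G
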