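import Mathlib
import Pool.Agent.H569G.FlowW
import Pool.Agent.H569G.TNN
import Pool.Agent.H569G.TEV1
import Pool.Agent.H569G.TEV2
import Pool.Agent.H569G.TFFIX
import Pool.Agent.H569G.TFLOW
import Pool.Agent.H569G.TFOU
import Pool.Agent.H569G.TFSTD
import Pool.Agent.H569G.TNSTEP
import Pool.Agent.H569G.TSTAGE
import Pool.Agent.H569G.TTAY
import Pool.Agent.H581R.FF.TAD
import Pool.Agent.H581R.FF.TBND
import Pool.Agent.H581R.FF.TCORE
import Pool.Agent.H581R.FF.TDER
import Pool.Agent.H581R.FF.TFIX0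
import Pool.Agent.H581R.FF.TFORM
import Pool.Agent.H581R.FF.TL1
import Pool.Agent.H581R.FF.TL2
import Pool.Agent.H581R.FF.TSTAR
import Pool.Agent.H581R.FF.TTR
import Pool.Agent.H581R.FF.TWORD
import Pool.Agent.H581R.FF.TEVST

/-! The flow theorem for abstract C*-algebras with a tracial state (weak form), and block 3 of room
GEN without hypotheses. -/

set_option autoImplicit false

open scoped ComplexOrder ComplexConjugate Topology

noncomputable section

namespace Pool.Agent.H569G.D

open Pool.Agent.H467F Pool.Agent.H735G Pool.Agent.H581R.FF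

theorem ev_single {κ A : Type} [CStarAlgebra A] (π : FreeGroup κ →* unitary A) (w : FreeGroup κ)
    (c : ℂ) : ev π (MonoidAlgebra.single w c) = c • (π w : A) := by
  unfold ev
  rw [MonoidAlgebra.lift_single]
  rfl

theorem evst : A_EVST := by
  intro κ A _ π f
  induction f using TEVST.ind with
  | h1 w c =>
    rw [TEVST.st_single, ev_single, ev_single, star_smul, map_inv]
    rfl
  | h2 f g hf hg => rw [TEVST.st_add, map_add, map_add, star_add, hf, hg]
  | h0 => rw [TEVST.st_zero, map_zero, star_zero]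

theorem stage : A_STAGE :=
  t_STAGE t_NN (t_NSTEP t_NN t_EV2 evst (t_FLOW t_EV1 evst) (t_TAY TL1.t_L1 t_EV1)
    (t_FSTD t_NN t_EV2) t_FFIX) (t_FOU t_NN) TDER.t_DER (t_BND TL1.t_L1) TTR.t_TR TSTAR.t_STAR
    TFORM.t_FORM TFIX0.t_FIX0 TAD.t_AD TL2.t_L2 TCORE.t_CORE TWORD.t_WORD

/-- THE FLOW THEOREM -/
theorem flowW : FlowW := flowW_of_stage stage

/-- BLOCK 3 of room GEN, unconditionally: if `N` is approximately free (`AF`), then `A` is generated
by `N` and one unitary. -/
theorem density_final (A : Type) [CStarAlgebra A] (τ : A →ₗ[ℂ] ℂ) (h : TW τ) (hS : SepT τ)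
    (N : StarSubalgebra ℂ A) (hAF : AF τ N) : ∃ u : unitary A, GenT τ ((N : Set A) ∪ {(u : A)}) :=
  density3 flowW A τ h hS N hAF

end Pool.Agent.H569G.D
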